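import Pool.Agent.H29.EX.Targets
import Pool.Agent.H67.DP.BLK

/-!
# (BLR) the bilinear form over one dyadic range of `k`, real powers
-/

set_option autoImplicit false

open Complex MeasureTheory Set Filter Topology

namespace Pool.Agent.H89.EX.BLR

open Pool.Agent.H25.DL Pool.Agent.H25.DP Pool.Agent.H29.EX Pool.Agent.H67.DP.BLK

/-! ### The sum over pairs -/

/-- the sum over all pairs of an interval -/
lemma sum_pairs2 (L Y : ℕ) :
    ∑ p ∈ Finset.Ico L Y, ∑ q ∈ (Finset.Ico L Y).erase p,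
      Real.sqrt Y / Real.sqrt |(p : ℝ) - q| ≤ 4 * (Y : ℝ) ^ 2 := by
  have hY0 : (0 : ℝ) ≤ Y := Nat.cast_nonneg Y
  have h1 : ∀ p ∈ Finset.Ico L Y, ∑ q ∈ (Finset.Ico L Y).erase p,
      Real.sqrt Y / Real.sqrt |(p : ℝ) - q| ≤ 4 * (Y : ℝ) := by
    intro p hp
    obtain ⟨hp1, hp2⟩ := Finset.mem_Ico.1 hp
    have h2 : (Finset.Ico L Y).erase p = Finset.Ico L p ∪ Finset.Ico (p + 1) Y := by
      ext q
      simp only [Finset.mem_erase, Finset.mem_Ico, Finset.mem_union]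
      omega
    have h3 : Disjoint (Finset.Ico L p) (Finset.Ico (p + 1) Y) := by
      rw [Finset.disjoint_left]
      intro q hq hq2
      simp only [Finset.mem_Ico] at hq hq2
      omega
    rw [h2, Finset.sum_union h3]
    have h4 := sum_left L p hp1
    have h5 := sum_right p Y hp2
    have hp3 : (p : ℝ) + 1 ≤ Y := by exact_mod_cast hp2
    have hL0 : (0 : ℝ) ≤ L := Nat.cast_nonneg L
    have hp0 : (0 : ℝ) ≤ p := Nat.cast_nonneg p
    have h6 : Real.sqrt ((p : ℝ) - L) ≤ Real.sqrt Y := Real.sqrt_le_sqrt (by linarith)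
    have h7 : Real.sqrt ((Y : ℝ) - 1 - p) ≤ Real.sqrt Y := Real.sqrt_le_sqrt (by linarith)
    have h8 : ∀ s : Finset ℕ, ∑ q ∈ s, Real.sqrt Y / Real.sqrt |(p : ℝ) - q| =
        Real.sqrt Y * ∑ q ∈ s, 1 / Real.sqrt |(p : ℝ) - q| := by
      intro s
      rw [Finset.mul_sum]
      refine Finset.sum_congr rfl fun q _ => ?_
      ring
    rw [h8, h8, ← mul_add]
    have h9 : Real.sqrt Y * Real.sqrt Y = Y := Real.mul_self_sqrt hY0
    have h10 : 0 ≤ Real.sqrt Y := Real.sqrt_nonneg _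
    calc Real.sqrt Y * (∑ q ∈ Finset.Ico L p, 1 / Real.sqrt |(p : ℝ) - q| +
          ∑ q ∈ Finset.Ico (p + 1) Y, 1 / Real.sqrt |(p : ℝ) - q|)
        ≤ Real.sqrt Y * (2 * Real.sqrt Y + 2 * Real.sqrt Y) := by
          gcongr
          · linarith
          · linarith
      _ = 4 * Y := by linear_combination 4 * h9
  refine (Finset.sum_le_sum h1).trans ?_
  rw [Finset.sum_const, Nat.card_Ico, nsmul_eq_mul]
  have : ((Y - L : ℕ) : ℝ) ≤ Y := by exact_mod_cast Nat.sub_le _ _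
  calc ((Y - L : ℕ) : ℝ) * (4 * (Y : ℝ)) ≤ Y * (4 * Y) := by gcongr
    _ = 4 * (Y : ℝ) ^ 2 := by ring

/-- the bound for one pair: `Θ = (P' - P) / P` -/
lemma pair_bound (T : ℝ) (hT : 1 ≤ T) (K : ℕ) (κ Θ D Y A a b : ℝ) (hκ : 1 ≤ κ) (hD : 0 < D)
    (hDY : D ≤ Y) (hΘ1 : D / Y ≤ Θ) (hΘ2 : Θ ≤ κ)
    (hab : (a = Real.sqrt T ∧ b = K / Real.sqrt T) ∨
      (a = Real.sqrt K * T ^ (1 / 6 : ℝ) ∧ b = K * T ^ (-(1 / 6) : ℝ))) (_ : A = a + b) :
    min (Real.sqrt (T * Θ) + K / Real.sqrt (T * Θ))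
      (Real.sqrt K * (T * Θ) ^ (1 / 6 : ℝ) + K * (T * Θ) ^ (-(1 / 6) : ℝ)) ≤
      κ * a + b * (Real.sqrt Y / Real.sqrt D) := by
  have hT0 : 0 < T := by linarith
  have hY0 : 0 < Y := by linarith
  have hK0 : (0 : ℝ) ≤ K := Nat.cast_nonneg K
  have hΘ0 : 0 < Θ := lt_of_lt_of_le (by positivity) hΘ1
  have hκ0 : 0 < κ := by linarith
  have hq1 : 1 ≤ Y / D := by rw [le_div_iff₀ hD]; linarith
  have hsq : Real.sqrt Y / Real.sqrt D = (Y / D) ^ (1 / 2 : ℝ) := by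
    rw [← Real.sqrt_div hY0.le, Real.sqrt_eq_rpow]
  have hΘinv : Θ⁻¹ ≤ Y / D := by
    rw [inv_le_comm₀ hΘ0 (by positivity), inv_div]
    exact hΘ1
  rcases hab with ⟨ha, hb⟩ | ⟨ha, hb⟩
  · refine (min_le_left _ _).trans ?_
    have s1 : 0 < Real.sqrt T := Real.sqrt_pos.2 hT0
    have s2 : 0 < Real.sqrt Θ := Real.sqrt_pos.2 hΘ0
    have e1 : Real.sqrt (T * Θ) = Real.sqrt T * Real.sqrt Θ := Real.sqrt_mul hT0.le _
    have e2 : Real.sqrt Θ ≤ κ := by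
      rw [Real.sqrt_le_left hκ0.le]
      nlinarith
    have e3 : 1 / Real.sqrt Θ ≤ Real.sqrt Y / Real.sqrt D := by
      have : 1 / Real.sqrt Θ = Real.sqrt (Θ⁻¹) := by rw [Real.sqrt_inv, one_div]
      rw [this, ← Real.sqrt_div hY0.le]
      exact Real.sqrt_le_sqrt hΘinv
    rw [ha, hb, e1]
    apply add_le_add
    · rw [mul_comm κ]
      gcongr
    · have : (K : ℝ) / (Real.sqrt T * Real.sqrt Θ) = K / Real.sqrt T * (1 / Real.sqrt Θ) := by
        field_simp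
      rw [this]
      gcongr
  · refine (min_le_right _ _).trans ?_
    have e1 : (T * Θ) ^ (1 / 6 : ℝ) = T ^ (1 / 6 : ℝ) * Θ ^ (1 / 6 : ℝ) :=
      Real.mul_rpow hT0.le hΘ0.le
    have e1' : (T * Θ) ^ (-(1 / 6) : ℝ) = T ^ (-(1 / 6) : ℝ) * Θ ^ (-(1 / 6) : ℝ) :=
      Real.mul_rpow hT0.le hΘ0.le
    have e2 : Θ ^ (1 / 6 : ℝ) ≤ κ := by
      calc Θ ^ (1 / 6 : ℝ) ≤ κ ^ (1 / 6 : ℝ) := Real.rpow_le_rpow hΘ0.le hΘ2 (by norm_num)
        _ ≤ κ ^ (1 : ℝ) := Real.rpow_le_rpow_of_exponent_le hκ (by norm_num)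
        _ = κ := Real.rpow_one _
    have e3 : Θ ^ (-(1 / 6) : ℝ) ≤ Real.sqrt Y / Real.sqrt D := by
      rw [hsq, Real.rpow_neg hΘ0.le, ← Real.inv_rpow hΘ0.le]
      calc (Θ⁻¹) ^ (1 / 6 : ℝ) ≤ (Y / D) ^ (1 / 6 : ℝ) :=
            Real.rpow_le_rpow (by positivity) hΘinv (by norm_num)
        _ ≤ (Y / D) ^ (1 / 2 : ℝ) := Real.rpow_le_rpow_of_exponent_le hq1 (by norm_num)
    rw [ha, hb, e1, e1']
    apply add_le_add
    · calc Real.sqrt K * (T ^ (1 / 6 : ℝ) * Θ ^ (1 / 6 : ℝ))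
          ≤ Real.sqrt K * (T ^ (1 / 6 : ℝ) * κ) := by gcongr
        _ = κ * (Real.sqrt K * T ^ (1 / 6 : ℝ)) := by ring
    · rw [mul_assoc]
      gcongr

/-- powers of two numbers of the interval -/
lemma theta_bound {r : ℝ} (hr : 1 < r) {l l' J L : ℕ} (hL : 1 ≤ L) (h1 : L ≤ l) (h2 : l < l')
    (h3 : l' < J * L) :
    0 < (l : ℝ) ^ r ∧ (l : ℝ) ^ r < (l' : ℝ) ^ r ∧ (l' : ℝ) ^ r ≤ (max 1 (J : ℝ)) ^ r * (l : ℝ) ^ r ∧
      |(l : ℝ) - l'| / (J * L : ℕ) ≤ ((l' : ℝ) ^ r - (l : ℝ) ^ r) / (l : ℝ) ^ r ∧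
      ((l' : ℝ) ^ r - (l : ℝ) ^ r) / (l : ℝ) ^ r ≤ (max 1 (J : ℝ)) ^ r := by
  have hl0 : (0 : ℝ) < l := by
    have : 0 < l := by omega
    exact_mod_cast this
  have hl' : (l : ℝ) < l' := by exact_mod_cast h2
  have hLl : (L : ℝ) ≤ l := by exact_mod_cast h1
  have hL0 : (0 : ℝ) < L := by exact_mod_cast hL
  have h3' : (l' : ℝ) < J * L := by exact_mod_cast h3
  have hJ : (J : ℝ) ≤ max 1 (J : ℝ) := le_max_right _ _
  have hm0 : (0 : ℝ) < max 1 (J : ℝ) := lt_of_lt_of_le one_pos (le_max_left _ _)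
  have hp : 0 < (l : ℝ) ^ r := by positivity
  have hlt : (l : ℝ) ^ r < (l' : ℝ) ^ r := Real.rpow_lt_rpow hl0.le hl' (by linarith)
  have hle : (l' : ℝ) ≤ max 1 (J : ℝ) * l := by
    have : (J : ℝ) * L ≤ max 1 (J : ℝ) * l := by gcongr
    linarith
  have hle2 : (l' : ℝ) ^ r ≤ (max 1 (J : ℝ)) ^ r * (l : ℝ) ^ r := by
    rw [← Real.mul_rpow hm0.le hl0.le]
    exact Real.rpow_le_rpow (by linarith) hle (by linarith)
  refine ⟨hp, hlt, hle2, ?_, ?_⟩
  · have hq : 1 ≤ (l' : ℝ) / l := by rw [le_div_iff₀ hl0]; linarith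
    have e1 : ((l' : ℝ) ^ r - (l : ℝ) ^ r) / (l : ℝ) ^ r = ((l' : ℝ) / l) ^ r - 1 := by
      rw [Real.div_rpow (by linarith) hl0.le]
      field_simp
    have e2 : (l' : ℝ) / l ≤ ((l' : ℝ) / l) ^ r := by
      calc (l' : ℝ) / l = ((l' : ℝ) / l) ^ (1 : ℝ) := (Real.rpow_one _).symm
        _ ≤ ((l' : ℝ) / l) ^ r := Real.rpow_le_rpow_of_exponent_le hq hr.le
    have e3 : |(l : ℝ) - l'| = l' - l := by
      rw [abs_sub_comm, abs_of_nonneg (by linarith)]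
    have e4 : ((l' : ℝ) - l) / (J * L : ℕ) ≤ ((l' : ℝ) - l) / l := by
      apply div_le_div_of_nonneg_left (by linarith) hl0
      push_cast
      linarith
    have e5 : ((l' : ℝ) - l) / l = (l' : ℝ) / l - 1 := by
      field_simp
    rw [e1, e3]
    linarith
  · rw [div_le_iff₀ hp]
    nlinarith

theorem pf_BLR (h : T_KSR) (h1 : T_IOA) (h2 : T_IOB) : T_BLR := by
  intro d B η r J hd hd2 hr
  obtain ⟨κ, hκ⟩ : ∃ κ : ℝ, κ = (max 1 (J : ℝ)) ^ r := ⟨_, rfl⟩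
  have hκ1 : 1 ≤ κ := by
    rw [hκ]
    exact Real.one_le_rpow (le_max_left _ _) (by linarith)
  obtain ⟨C₁, T₁, hC₁, h1'⟩ := h d B η κ hd hd2 hκ1
  obtain ⟨C₂, T₂, hC₂, h2'⟩ := h1 d B η (by linarith)
  obtain ⟨C₃, T₃, hC₃, h3'⟩ := h2 d B η (by linarith)
  obtain ⟨T₄, hT₄, h4⟩ := log_le_eventually
  refine ⟨(4 * C₃ + C₂ + Real.sqrt ((4 + κ) * C₁)) * J + 1, max (max T₁ T₂) (max T₃ T₄),
    by positivity, ?_⟩
  intro T hT H W y hH hW hHW hy K L α β A hK hL hα hβ hA0 hA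
  have hT1 : T₁ ≤ T := ((le_max_left _ _).trans (le_max_left _ _)).trans hT
  have hT2 : T₂ ≤ T := ((le_max_right _ _).trans (le_max_left _ _)).trans hT
  have hT3 : T₃ ≤ T := ((le_max_left _ _).trans (le_max_right _ _)).trans hT
  have hT4 : T₄ ≤ T := ((le_max_right _ _).trans (le_max_right _ _)).trans hT
  have hlog := h4 T hT4
  have hTone : 1 ≤ T := hT₄.trans hT4
  have hT0 : 0 < T := by linarith
  have hW0 : 0 < W := by linarith
  have hWT : W ≤ T := by linarith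
  obtain ⟨Q, hQ⟩ : ∃ Q : Finset ℕ, Q = Finset.Ico K (2 * K) := ⟨_, rfl⟩
  obtain ⟨P, hP⟩ : ∃ P : Finset ℕ, P = Finset.Ico L (J * L) := ⟨_, rfl⟩
  obtain ⟨Y, hY⟩ : ∃ Y : ℕ, Y = J * L := ⟨_, rfl⟩
  obtain ⟨g, hg⟩ : ∃ g : ℕ → ℕ → ℂ, g = fun (k l : ℕ) =>
      if T / 4 ≤ Vv d B (k * (l : ℝ) ^ r) ∧ Vv d B (k * (l : ℝ) ^ r) ≤ 8 * T then
        IO d B η H W y (Real.log (k * (l : ℝ) ^ r)) else 0 := ⟨_, rfl⟩
  have hQcard : (Q.card : ℝ) = K := by
    rw [hQ, Nat.card_Ico, show 2 * K - K = K by omega]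
  have hPcard : (P.card : ℝ) ≤ Y := by
    rw [hP, Nat.card_Ico, hY]
    exact_mod_cast Nat.sub_le _ _
  have hY0 : (0 : ℝ) ≤ Y := Nat.cast_nonneg Y
  have hYJ : (Y : ℝ) = J * L := by rw [hY]; push_cast; ring
  have hK0 : (0 : ℝ) < K := by exact_mod_cast hK
  have hL0 : (0 : ℝ) < L := by exact_mod_cast hL
  have hJ0 : (0 : ℝ) ≤ J := Nat.cast_nonneg J
  -- positivity of the frequencies
  have hpos : ∀ k ∈ Q, ∀ l ∈ P, 0 < (k : ℝ) * (l : ℝ) ^ r ∧
      Real.log k + r * Real.log l = Real.log ((k : ℝ) * (l : ℝ) ^ r) := by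
    intro k hk l hl
    rw [hQ, Finset.mem_Ico] at hk
    rw [hP, Finset.mem_Ico] at hl
    have hk0 : (0 : ℝ) < k := by
      have : 0 < k := by omega
      exact_mod_cast this
    have hl0 : (0 : ℝ) < l := by
      have : 0 < l := by omega
      exact_mod_cast this
    refine ⟨by positivity, ?_⟩
    rw [Real.log_mul hk0.ne' (by positivity), Real.log_rpow hl0]
  -- the terms without stationary point
  have hfar : ∀ k ∈ Q, ∀ l ∈ P,
      ‖IO d B η H W y (Real.log k + r * Real.log l) - g k l‖ ≤ 4 * C₃ / T := by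
    intro k hk l hl
    obtain ⟨hl, hlog2⟩ := hpos k hk l hl
    rw [hlog2, hg]
    simp only
    split_ifs with hst
    · rw [sub_self, norm_zero]
      positivity
    · rw [sub_zero]
      obtain ⟨hV0, hV⟩ := log_Vv (B := B) (by linarith : 0 < d) hl
      have h5 := h3' T hT3 H W y (Real.log ((k : ℝ) * (l : ℝ) ^ r)) 1 hH (by linarith) hHW hy
        (by rw [div_le_one hT0]; exact hWT) (fun u hu => by
          obtain ⟨hu1, hu2⟩ := hu
          have hy2 := abs_le.1 (hy.trans hlog)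
          have e : d * Real.log (u + y) + d + B - Real.log ((k : ℝ) * (l : ℝ) ^ r) =
              d * Real.log (u + y) - d * Real.log (Vv d B ((k : ℝ) * (l : ℝ) ^ r)) := by
            linear_combination -hV
          rw [e]
          exact far hd hT0 hV0 (by linarith [hy2.1]) (by linarith [hy2.2]) hst)
      refine h5.trans ?_
      rw [one_pow, mul_one, div_le_div_iff₀ hW0 hT0]
      nlinarith
  -- the terms with stationary point
  have hgn : ∀ k l, ‖g k l‖ ≤ C₂ * Real.sqrt T := by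
    intro k l
    rw [hg]
    simp only
    split_ifs
    · refine (h2' T hT2 H W y _ hH hW0 hHW hy).trans ?_
      exact mul_le_mul_of_nonneg_left (min_le_right _ _) hC₂.le
    · rw [norm_zero]
      positivity
  -- the two parts of `A`
  obtain ⟨a, b, ha0, hb0, hAab, hab⟩ : ∃ a b : ℝ, 0 ≤ a ∧ 0 ≤ b ∧ A = a + b ∧
      ((a = Real.sqrt T ∧ b = K / Real.sqrt T) ∨
      (a = Real.sqrt K * T ^ (1 / 6 : ℝ) ∧ b = K * T ^ (-(1 / 6) : ℝ))) := by
    rcases hA with hA | hA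
    · exact ⟨_, _, by positivity, by positivity, hA, Or.inl ⟨rfl, rfl⟩⟩
    · exact ⟨_, _, by positivity, by positivity, hA, Or.inr ⟨rfl, rfl⟩⟩
  have hR : ∑ p ∈ P, ∑ p' ∈ P, ‖∑ k ∈ Q, g k p * (starRingEnd ℂ) (g k p')‖ ≤
      Y * (K * (C₂ ^ 2 * T)) + C₁ * T * ((4 + κ) * (Y : ℝ) ^ 2 * A) := by
    have hdiag : ∀ p ∈ P, ‖∑ k ∈ Q, g k p * (starRingEnd ℂ) (g k p)‖ ≤
        K * (C₂ ^ 2 * T) := by
      intro p _
      refine (norm_sum_le _ _).trans ?_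
      have : ∀ k ∈ Q, ‖g k p * (starRingEnd ℂ) (g k p)‖ ≤ C₂ ^ 2 * T := by
        intro k _
        rw [norm_mul, RCLike.norm_conj]
        have h5 := hgn k p
        have h6 : Real.sqrt T ^ 2 = T := Real.sq_sqrt hT0.le
        calc ‖g k p‖ * ‖g k p‖ ≤ (C₂ * Real.sqrt T) * (C₂ * Real.sqrt T) := by gcongr
          _ = C₂ ^ 2 * T := by linear_combination C₂ ^ 2 * h6
      refine (Finset.sum_le_sum this).trans ?_
      rw [Finset.sum_const, nsmul_eq_mul, hQcard]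
    -- one ordered pair
    have hlt : ∀ p ∈ P, ∀ q ∈ P, p < q → ‖∑ k ∈ Q, g k p * (starRingEnd ℂ) (g k q)‖ ≤
        C₁ * T * (κ * a + b * (Real.sqrt Y / Real.sqrt |(p : ℝ) - q|)) := by
      intro p hp q hq hpq
      rw [hP, Finset.mem_Ico] at hp hq
      obtain ⟨t1, t2, t3, t4, t5⟩ := theta_bound hr hL hp.1 hpq hq.2
      rw [← hκ] at t3 t5
      rw [← hY] at t4
      have h5 := h1' T hT1 H W y hH hW hHW hy K ((p : ℝ) ^ r) ((q : ℝ) ^ r) hK t1 t2 t3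
      have hD0 : 0 < |(p : ℝ) - q| := by
        apply abs_pos.2
        have : (p : ℝ) < q := by exact_mod_cast hpq
        linarith
      have hDY : |(p : ℝ) - q| ≤ Y := by
        have e1 : (p : ℝ) < q := by exact_mod_cast hpq
        have e2 : (q : ℝ) < J * L := by exact_mod_cast hq.2
        have e3 : (0 : ℝ) ≤ p := Nat.cast_nonneg p
        rw [abs_sub_comm, abs_of_nonneg (by linarith), hYJ]
        linarith
      have h6 := pair_bound T hTone K κ _ _ Y A a b hκ1 hD0 hDY t4 t5 hab hAab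
      refine le_trans (le_of_eq ?_) (h5.trans (mul_le_mul_of_nonneg_left h6 (by positivity)))
      rw [hQ]
      congr 1
      refine Finset.sum_congr rfl fun k _ => ?_
      rw [hg]
      simp only
      by_cases c1 : T / 4 ≤ Vv d B (k * (p : ℝ) ^ r) ∧ Vv d B (k * (p : ℝ) ^ r) ≤ 8 * T
      · by_cases c2 : T / 4 ≤ Vv d B (k * (q : ℝ) ^ r) ∧ Vv d B (k * (q : ℝ) ^ r) ≤ 8 * T
        · rw [if_pos c1, if_pos c2, if_pos ⟨c1, c2⟩]
        · rw [if_neg c2, map_zero, mul_zero, if_neg (fun c => c2 c.2)]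
      · rw [if_neg c1, zero_mul, if_neg (fun c => c1 c.1)]
    have hoff : ∀ p ∈ P, ∀ q ∈ P.erase p, ‖∑ k ∈ Q, g k p * (starRingEnd ℂ) (g k q)‖ ≤
        C₁ * T * (κ * a + b * (Real.sqrt Y / Real.sqrt |(p : ℝ) - q|)) := by
      intro p hp q hq
      obtain ⟨hne, hq'⟩ := Finset.mem_erase.1 hq
      rcases lt_or_gt_of_ne hne with hh | hh
      · have h5 := hlt q hq' p hp hh
        have h6 : ‖∑ k ∈ Q, g k p * (starRingEnd ℂ) (g k q)‖ =
            ‖∑ k ∈ Q, g k q * (starRingEnd ℂ) (g k p)‖ := by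
          rw [← RCLike.norm_conj (∑ k ∈ Q, g k q * (starRingEnd ℂ) (g k p)), map_sum]
          congr 1
          refine Finset.sum_congr rfl fun k _ => ?_
          rw [map_mul, Complex.conj_conj]
          ring
        rw [h6, abs_sub_comm]
        exact h5
      · exact hlt p hp q hq' hh
    have hsplit : ∑ p ∈ P, ∑ p' ∈ P, ‖∑ k ∈ Q, g k p * (starRingEnd ℂ) (g k p')‖ =
        ∑ p ∈ P, ‖∑ k ∈ Q, g k p * (starRingEnd ℂ) (g k p)‖ +
        ∑ p ∈ P, ∑ p' ∈ P.erase p, ‖∑ k ∈ Q, g k p * (starRingEnd ℂ) (g k p')‖ := by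
      rw [← Finset.sum_add_distrib]
      refine Finset.sum_congr rfl fun p hp => ?_
      exact (Finset.add_sum_erase P
        (fun p' => ‖∑ k ∈ Q, g k p * (starRingEnd ℂ) (g k p')‖) hp).symm
    rw [hsplit]
    apply add_le_add
    · refine (Finset.sum_le_sum hdiag).trans ?_
      rw [Finset.sum_const, nsmul_eq_mul]
      gcongr
    · refine (Finset.sum_le_sum fun p hp => Finset.sum_le_sum fun q hq => hoff p hp q hq).trans ?_
      simp_rw [← Finset.mul_sum]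
      apply mul_le_mul_of_nonneg_left _ (by positivity)
      have e1 : ∑ p ∈ P, ∑ q ∈ P.erase p, (κ * a + b * (Real.sqrt Y / Real.sqrt |(p : ℝ) - q|)) =
          ∑ p ∈ P, ((P.erase p).card : ℝ) * (κ * a) +
          b * ∑ p ∈ P, ∑ q ∈ P.erase p, Real.sqrt Y / Real.sqrt |(p : ℝ) - q| := by
        rw [Finset.mul_sum, ← Finset.sum_add_distrib]
        refine Finset.sum_congr rfl fun p _ => ?_
        rw [Finset.sum_add_distrib, Finset.sum_const, nsmul_eq_mul, Finset.mul_sum]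
      have e2 : ∑ p ∈ P, ((P.erase p).card : ℝ) * (κ * a) ≤ (Y : ℝ) ^ 2 * (κ * a) := by
        have : ∀ p ∈ P, ((P.erase p).card : ℝ) * (κ * a) ≤ (Y : ℝ) * (κ * a) := by
          intro p _
          have hc : ((P.erase p).card : ℝ) ≤ Y := by
            refine le_trans ?_ hPcard
            exact_mod_cast Finset.card_erase_le
          gcongr
        refine (Finset.sum_le_sum this).trans ?_
        rw [Finset.sum_const, nsmul_eq_mul]
        calc (P.card : ℝ) * (Y * (κ * a)) ≤ Y * (Y * (κ * a)) := by gcongr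
          _ = (Y : ℝ) ^ 2 * (κ * a) := by ring
      have e3 : ∑ p ∈ P, ∑ q ∈ P.erase p, Real.sqrt Y / Real.sqrt |(p : ℝ) - q| ≤
          4 * (Y : ℝ) ^ 2 := by
        rw [hP, ← hY]
        exact sum_pairs2 L Y
      rw [e1]
      calc _ ≤ (Y : ℝ) ^ 2 * (κ * a) + b * (4 * (Y : ℝ) ^ 2) := by gcongr
        _ ≤ (4 + κ) * (Y : ℝ) ^ 2 * A := by
          rw [hAab]
          have e4 : 0 ≤ (Y : ℝ) ^ 2 := by positivity
          nlinarith [mul_nonneg e4 ha0, mul_nonneg (mul_nonneg e4 hb0) (by linarith : (0:ℝ) ≤ κ)]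
  -- the bound for the stationary part
  have hS1 : ‖∑ k ∈ Q, ∑ l ∈ P, α k * β l * g k l‖ ≤
      C₂ * K * Real.sqrt (Y * T) + Real.sqrt ((4 + κ) * C₁) * Y * Real.sqrt (K * T * A) := by
    have h5 := bilin {0} Q P (fun _ => 1) α β (fun _ => g) _ (fun _ => by simp) hα hβ
      (fun n _ => hR)
    have h5' : ∑ n ∈ ({0} : Finset ℕ), ∑ k ∈ Q, ∑ p ∈ P, (1 : ℂ) * α k * β p * g k p =
        ∑ k ∈ Q, ∑ l ∈ P, α k * β l * g k l := by
      rw [Finset.sum_singleton]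
      simp only [one_mul]
    rw [h5', Finset.card_singleton, Nat.cast_one, one_mul, one_mul, hQcard] at h5
    have e1 : Real.sqrt (Y * T) ^ 2 = Y * T := Real.sq_sqrt (by positivity)
    have e2 : Real.sqrt (K * T * A) ^ 2 = K * T * A := Real.sq_sqrt (by positivity)
    have e3 : Real.sqrt ((4 + κ) * C₁) ^ 2 = (4 + κ) * C₁ := Real.sq_sqrt (by positivity)
    refine le_of_sq_le_sq (h5.trans ?_) (by positivity)
    obtain ⟨u, hu⟩ : ∃ u : ℝ, u = C₂ * K * Real.sqrt (Y * T) := ⟨_, rfl⟩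
    obtain ⟨v, hv⟩ : ∃ v : ℝ, v = Real.sqrt ((4 + κ) * C₁) * Y * Real.sqrt (K * T * A) :=
      ⟨_, rfl⟩
    have hu0 : 0 ≤ u := by rw [hu]; positivity
    have hv0 : 0 ≤ v := by rw [hv]; positivity
    have e6 : u ^ 2 = C₂ ^ 2 * K ^ 2 * (Y * T) := by rw [hu, mul_pow, mul_pow, e1]
    have e7 : v ^ 2 = (4 + κ) * C₁ * Y ^ 2 * (K * T * A) := by
      rw [hv, mul_pow, mul_pow, e2, e3]
    have e5 : (K : ℝ) * (Y * (K * (C₂ ^ 2 * T)) + C₁ * T * ((4 + κ) * (Y : ℝ) ^ 2 * A)) =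
        u ^ 2 + v ^ 2 := by
      rw [e6, e7]
      ring
    rw [← hu, ← hv, e5]
    nlinarith [mul_nonneg hu0 hv0]
  -- the bound for the rest
  have hS2 : ‖∑ k ∈ Q, ∑ l ∈ P, α k * β l *
      (IO d B η H W y (Real.log k + r * Real.log l) - g k l)‖ ≤ K * (Y * (4 * C₃ / T)) := by
    refine (norm_sum_le _ _).trans ?_
    rw [← hQcard, ← nsmul_eq_mul, ← Finset.sum_const]
    refine Finset.sum_le_sum fun k hk => ?_
    refine (norm_sum_le _ _).trans ?_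
    have h5 : ∑ l ∈ P, ‖α k * β l * (IO d B η H W y (Real.log k + r * Real.log l) - g k l)‖ ≤
        ∑ _l ∈ P, 4 * C₃ / T := by
      refine Finset.sum_le_sum fun l hl => ?_
      rw [norm_mul, norm_mul]
      have h6 := hfar k hk l hl
      have h7 : ‖α k‖ * ‖β l‖ ≤ 1 := by
        have := hα k
        have := hβ l
        calc ‖α k‖ * ‖β l‖ ≤ 1 * 1 := by gcongr
          _ = 1 := by norm_num
      calc ‖α k‖ * ‖β l‖ * ‖IO d B η H W y (Real.log k + r * Real.log l) - g k l‖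
          ≤ 1 * (4 * C₃ / T) := by gcongr
        _ = 4 * C₃ / T := one_mul _
    refine h5.trans ?_
    rw [Finset.sum_const, nsmul_eq_mul]
    gcongr
  -- conclusion
  have hsum : ∑ k ∈ Q, ∑ l ∈ P, α k * β l * IO d B η H W y (Real.log k + r * Real.log l) =
      (∑ k ∈ Q, ∑ l ∈ P, α k * β l * g k l) +
      ∑ k ∈ Q, ∑ l ∈ P, α k * β l *
        (IO d B η H W y (Real.log k + r * Real.log l) - g k l) := by
    rw [← Finset.sum_add_distrib]
    refine Finset.sum_congr rfl fun k _ => ?_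
    rw [← Finset.sum_add_distrib]
    refine Finset.sum_congr rfl fun l _ => ?_
    ring
  rw [← hQ, ← hP, hsum]
  refine (norm_add_le _ _).trans ((add_le_add hS1 hS2).trans ?_)
  have hsJ : Real.sqrt (Y * T) ≤ J * Real.sqrt (L * T) := by
    have e1 : (Y : ℝ) * T = J * (L * T) := by rw [hYJ]; ring
    rw [e1, Real.sqrt_mul hJ0]
    apply mul_le_mul_of_nonneg_right _ (Real.sqrt_nonneg _)
    rw [Real.sqrt_le_left hJ0]
    have : J ≤ J ^ 2 := Nat.le_self_pow two_ne_zero J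
    exact_mod_cast this
  have p1 : (0 : ℝ) ≤ (K : ℝ) * L / T := by positivity
  have p2 : (0 : ℝ) ≤ (K : ℝ) * Real.sqrt (L * T) := by positivity
  have p3 : (0 : ℝ) ≤ (L : ℝ) * Real.sqrt (K * T * A) := by positivity
  have p4 : 0 ≤ Real.sqrt ((4 + κ) * C₁) := Real.sqrt_nonneg _
  have m1 : C₂ * K * Real.sqrt (Y * T) ≤ C₂ * J * ((K : ℝ) * Real.sqrt (L * T)) := by
    calc C₂ * K * Real.sqrt (Y * T) ≤ C₂ * K * (J * Real.sqrt (L * T)) := by gcongr
      _ = C₂ * J * ((K : ℝ) * Real.sqrt (L * T)) := by ring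
  have m2 : Real.sqrt ((4 + κ) * C₁) * Y * Real.sqrt (K * T * A) =
      Real.sqrt ((4 + κ) * C₁) * J * ((L : ℝ) * Real.sqrt (K * T * A)) := by
    rw [hYJ]; ring
  have m3 : (K : ℝ) * (Y * (4 * C₃ / T)) = 4 * C₃ * J * ((K : ℝ) * L / T) := by
    rw [hYJ]; ring
  have e : ((4 * C₃ + C₂ + Real.sqrt ((4 + κ) * C₁)) * J + 1) * ((K : ℝ) * L / T +
      K * Real.sqrt (L * T) + L * Real.sqrt (K * T * A)) -
      (C₂ * J * ((K : ℝ) * Real.sqrt (L * T)) +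
      Real.sqrt ((4 + κ) * C₁) * J * ((L : ℝ) * Real.sqrt (K * T * A)) +
      4 * C₃ * J * ((K : ℝ) * L / T)) =
      ((C₂ + Real.sqrt ((4 + κ) * C₁)) * J + 1) * ((K : ℝ) * L / T) +
      ((4 * C₃ + Real.sqrt ((4 + κ) * C₁)) * J + 1) * ((K : ℝ) * Real.sqrt (L * T)) +
      ((4 * C₃ + C₂) * J + 1) * ((L : ℝ) * Real.sqrt (K * T * A)) := by
    ring
  have q1 : 0 ≤ ((C₂ + Real.sqrt ((4 + κ) * C₁)) * J + 1) * ((K : ℝ) * L / T) := by positivity
  have q2 : 0 ≤ ((4 * C₃ + Real.sqrt ((4 + κ) * C₁)) * J + 1) * ((K : ℝ) * Real.sqrt (L * T)) := by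
    positivity
  have q3 : 0 ≤ ((4 * C₃ + C₂) * J + 1) * ((L : ℝ) * Real.sqrt (K * T * A)) := by positivity
  rw [m2, m3]
  linarith

end Pool.Agent.H89.EX.BLR
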