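import Pool.Agent.H98.EX.LTargets

/-!
# Row BDX of the board `exa_modules`: the first kind of bad pairs is rare

The model is `Pool/Agent/H86/SLN/BD1.lean`.
-/

set_option autoImplicit false

open MeasureTheory ProbabilityTheory Filter Topology
open Pool.Agent.H95 Pool.Agent.H95.Cop
open Pool.Agent.H55.CG (pz VV Mo)
open Pool.Agent.H98.SLN (RG TS MM YY Sq uq T_UQB T_CMT T_TLQ)
open Pool.Agent.H98.EX
open scoped ENNReal

namespace Pool.Agent.H89.EX.BDX

theorem H_meas (a b : ℕ) : Measurable (fun x : ℕ → ℝ => H x a b) := by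
  unfold H
  exact Finset.measurable_sum _ fun i _ => measurable_pi_apply i

theorem H_dep {a b n : ℕ} (h : b ≤ n) : DepLt n (fun x : ℕ → ℝ => H x a b) := by
  intro x x' hx
  unfold H
  refine Finset.sum_congr rfl fun i hi => ?_
  rw [Finset.mem_Ico] at hi
  exact hx i (by omega)

theorem cell_sum {M : Type*} [AddCommMonoid M] (ℓ a b : ℕ) (hab : a ≤ b) (G : ℕ → ℕ → M) :
    ∑ y ∈ Finset.Ico (a * ℓ) ((a + 1) * ℓ), ∑ z ∈ Finset.Ico (b * ℓ) ((b + 1) * ℓ), G y z =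
    ∑ y ∈ Finset.Ico (0 * ℓ) ((0 + 1) * ℓ),
      ∑ z ∈ Finset.Ico ((b - a) * ℓ) ((b - a + 1) * ℓ), G (y + a * ℓ) (z + a * ℓ) := by
  have e1 : a * ℓ = 0 * ℓ + a * ℓ := by ring
  have e2 : (a + 1) * ℓ = (0 + 1) * ℓ + a * ℓ := by ring
  have e3 : b * ℓ = (b - a) * ℓ + a * ℓ := by
    rw [← add_mul, Nat.sub_add_cancel hab]
  have e4 : (b + 1) * ℓ = (b - a + 1) * ℓ + a * ℓ := by
    rw [← add_mul]
    congr 1
    omega
  have h1 : ∑ y ∈ Finset.Ico (a * ℓ) ((a + 1) * ℓ), ∑ z ∈ Finset.Ico (b * ℓ) ((b + 1) * ℓ),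
      G y z = ∑ y ∈ Finset.Ico (0 * ℓ + a * ℓ) ((0 + 1) * ℓ + a * ℓ),
      ∑ z ∈ Finset.Ico ((b - a) * ℓ + a * ℓ) ((b - a + 1) * ℓ + a * ℓ), G y z := by
    rw [← e1, ← e2, ← e3, ← e4]
  rw [h1, ← Finset.sum_Ico_add']
  refine Finset.sum_congr rfl fun y _ => ?_
  rw [← Finset.sum_Ico_add']

theorem MM_shift (K : PMF ℕ) (ℓ q a b : ℕ) (hab : a ≤ b) :
    MM K ℓ q a b = MM K ℓ q 0 (b - a) := by
  unfold MM
  rw [cell_sum ℓ a b hab]
  refine Finset.sum_congr rfl fun y _ => Finset.sum_congr rfl fun z _ => ?_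
  congr 1
  omega

theorem YY_shift (hUQB : T_UQB) (K : PMF ℕ) (ℓ q : ℕ) (x : ℕ → ℝ) (a b : ℕ) (hab : a ≤ b) :
    YY K ℓ q x a b = YY K ℓ q (shift (a * ℓ) x) 0 (b - a) := by
  unfold YY
  rw [MM_shift K ℓ q a b hab, cell_sum ℓ a b hab]
  congr 1
  refine Finset.sum_congr rfl fun y _ => Finset.sum_congr rfl fun z _ => ?_
  have e1 : z + a * ℓ - (y + a * ℓ) = z - y := by omega
  rw [e1, H_shift, (hUQB K q).2.2.2.2 (z - y) x y (a * ℓ)]

/-- the typical exponent as a partial sum of the charges -/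
theorem cX_eq (k : ℕ) (ϑ : ℝ) (x : ℕ → ℝ) (a b : ℕ) (hab : a ≤ b + 1) :
    cX k ϑ x a b = H x (a * k) ((b + 1) * k) / 2 + (((b + 1 : ℕ) : ℝ) - a) * ϑ / 2 := by
  unfold cX
  have h : ∀ c : ℕ, a ≤ c → H (yk k ϑ x) a c =
      H x (a * k) (c * k) / 2 + ((c : ℝ) - a) * ϑ / 2 := by
    intro c hc
    induction c, hc using Nat.le_induction with
    | base => simp [H]
    | succ c hc ih =>
      have h1 : H (yk k ϑ x) a (c + 1) = H (yk k ϑ x) a c + yk k ϑ x c := by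
        unfold H
        rw [Finset.sum_Ico_succ_top hc]
      have h2 : H x (a * k) ((c + 1) * k) = H x (a * k) (c * k) + H x (c * k) ((c + 1) * k) :=
        (H_add x (Nat.mul_le_mul_right k hc) (Nat.mul_le_mul_right k (Nat.le_succ c))).symm
      rw [h1, ih, h2]
      unfold yk
      push_cast
      ring
  exact h (b + 1) hab

theorem cX_shift (k : ℕ) (ϑ : ℝ) (x : ℕ → ℝ) (a b : ℕ) (hab : a ≤ b) :
    cX k ϑ x a b = cX k ϑ (shift (a * k) x) 0 (b - a) := by
  rw [cX_eq k ϑ x a b (by omega), cX_eq k ϑ _ 0 (b - a) (by omega)]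
  have e1 : 0 * k + a * k = a * k := by ring
  have e2 : (b - a + 1) * k + a * k = (b + 1) * k := by
    rw [← add_mul]
    congr 1
    omega
  rw [H_shift, e1, e2]
  push_cast [Nat.cast_sub hab]
  ring

end Pool.Agent.H89.EX.BDX

namespace Pool.Agent.H89.EX

open Pool.Agent.H89.EX.BDX

/-- row BDX, with the closed fact `UQB` as a hypothesis -/
theorem pf_BDX (hUQB : T_UQB) (hCMT : T_CMT) (_hTLQ : T_TLQ) (hYSM : T_YSM) (hYGX : T_YGX) :
    T_BDX := by
  intro K ν α c δ r ϑ ε τ β ζ η k q n R D J hDC a b hab hbD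
  have := hDC.lm.eg.prob
  have hexp := hDC.lm.eg.exp
  have hϑ0 := hDC.ϑ0
  have hab' : a ≤ b := by omega
  have hk : 1 ≤ k := by
    rcases Nat.eq_zero_or_pos k with h | h
    · have := hDC.kr
      rw [h] at this
      norm_num at this
    · exact h
  obtain ⟨-, -, -, hMoy, -⟩ := hYSM ν hexp k ϑ hk
  obtain ⟨γ, hγ⟩ : ∃ γ : ℝ, γ = 1 / (1 + α) := ⟨_, rfl⟩
  have hm1 := hDC.lm.m1
  have hm2 := hDC.lm.m2
  have hm4 := hDC.lm.m4
  rw [← hγ] at hm1 hm2 hm4 ⊢
  obtain ⟨B, hB⟩ : ∃ B : ℕ, B = b - a := ⟨_, rfl⟩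
  have hB1 : 1 ≤ B := by omega
  have hBD : B + 1 ≤ D := by omega
  have hL : b + 1 - a = B + 1 := by omega
  rw [hL]
  obtain ⟨hprob', hint4, hcm⟩ := hCMT ν hexp (γ / 2)
  obtain ⟨ν', hν'⟩ : ∃ ν' : Measure ℝ, ν' = ν.tilted fun z => γ / 2 * z := ⟨_, rfl⟩
  rw [← hν'] at hprob' hint4 hcm hm1 hm2 hm4
  have := hprob'
  have hBDr : (B : ℝ) + 1 ≤ D := by exact_mod_cast hBD
  obtain ⟨v, hv⟩ : ∃ v : ℝ, v = ϑ ^ (1 / 4 : ℝ) := ⟨_, rfl⟩
  have hv0 : 0 ≤ v := by
    rw [hv]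
    positivity
  -- the event
  obtain ⟨E, hE⟩ : ∃ E : Set (ℕ → ℝ), E = {x | YY K k q x 0 B < cX k ϑ x 0 B - 3 * v} :=
    ⟨_, rfl⟩
  have hcXe : ∀ x : ℕ → ℝ, cX k ϑ x 0 B =
      H x 0 ((B + 1) * k) / 2 + ((B : ℝ) + 1) * ϑ / 2 := by
    intro x
    rw [cX_eq k ϑ x 0 B (by omega), zero_mul]
    push_cast
    ring
  have hcXm : Measurable (fun x : ℕ → ℝ => cX k ϑ x 0 B) := by
    simp_rw [hcXe]
    exact ((H_meas _ _).div_const 2).add_const _
  have hYYm : Measurable (fun x : ℕ → ℝ => YY K k q x 0 B) := by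
    unfold YY
    refine Measurable.div_const ?_ _
    refine Finset.measurable_sum _ fun y _ => Finset.measurable_sum _ fun z _ => ?_
    exact (((H_meas y z).div_const 2).const_mul _).add ((hUQB K q).2.2.2.1 (z - y) y).1
  have hEm : MeasurableSet E := by
    rw [hE]
    exact measurableSet_lt hYYm (hcXm.sub_const (3 * v))
  have hcXd : DepLt ((B + 1) * k) (fun x : ℕ → ℝ => cX k ϑ x 0 B) := by
    intro x x' hx
    change cX k ϑ x 0 B = cX k ϑ x' 0 B
    rw [hcXe, hcXe]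
    have h1 := H_dep (a := 0) (le_refl ((B + 1) * k)) x x' hx
    rw [show H x 0 ((B + 1) * k) = H x' 0 ((B + 1) * k) from h1]
  have hYYd : DepLt ((B + 1) * k) (fun x : ℕ → ℝ => YY K k q x 0 B) := by
    intro x x' hx
    change YY K k q x 0 B = YY K k q x' 0 B
    unfold YY
    congr 1
    refine Finset.sum_congr rfl fun y hy => Finset.sum_congr rfl fun z hz => ?_
    rw [Finset.mem_Ico] at hy hz
    have h1 : y ≤ z := by
      have h2 : y < k := by
        have := hy.2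
        rwa [zero_add, one_mul] at this
      have h3 : k ≤ B * k := Nat.le_mul_of_pos_left k hB1
      omega
    have h4 : H x y z = H x' y z := H_dep (a := y) (le_of_lt hz.2) x x' hx
    have h5 : Sq K q x (z - y) y = Sq K q x' (z - y) y := by
      refine ((hUQB K q).2.2.2.1 (z - y) y).2 x x' fun i hi => hx i ?_
      have : y + (z - y) = z := by omega
      omega
    rw [h4, h5]
  obtain ⟨g, hg⟩ : ∃ g : (ℕ → ℝ) → ℝ≥0∞, g = E.indicator fun _ => 1 := ⟨_, rfl⟩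
  have hgm : Measurable g := by
    rw [hg]
    exact measurable_const.indicator hEm
  have hgd : DepLt ((B + 1) * k) g := by
    intro x x' hx
    rw [hg]
    have h1 : x ∈ E ↔ x' ∈ E := by
      rw [hE]
      change YY K k q x 0 B < cX k ϑ x 0 B - 3 * v ↔ YY K k q x' 0 B < cX k ϑ x' 0 B - 3 * v
      have h2 : YY K k q x 0 B = YY K k q x' 0 B := hYYd x x' hx
      have h3 : cX k ϑ x 0 B = cX k ϑ x' 0 B := hcXd x x' hx
      rw [h2, h3]
    by_cases hxE : x ∈ E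
    · rw [Set.indicator_of_mem hxE, Set.indicator_of_mem (h1.1 hxE)]
    · rw [Set.indicator_of_notMem hxE, Set.indicator_of_notMem (fun h => hxE (h1.2 h))]
  -- the probability
  have hPE : (iid ν').real E ≤ 6 * v := by
    rw [hE, hv]
    refine hYGX K α c δ k q hDC.rx.rg ν' hint4 ϑ τ hϑ0 hDC.ϑ1 hDC.τ0 hm1 hm2 hm4 0 B
      (by omega) ?_ ?_
    · have h1 := hDC.D2
      have h2 := hDC.r1
      have h3 : 0 ≤ 2 ^ 9 * Real.sqrt δ := by positivity
      have h4 : 2 ^ 9 * Real.sqrt δ * ((B : ℝ) + 1 - ((0 : ℕ) : ℝ)) ≤ 2 ^ 9 * Real.sqrt δ * D := by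
        refine mul_le_mul_of_nonneg_left ?_ h3
        push_cast
        linarith
      linarith
    · have h1 := hDC.D3
      have h2 : 0 ≤ τ + Real.sqrt δ := add_nonneg hDC.τ0 (Real.sqrt_nonneg _)
      have h3 : ((B : ℝ) + 1 - ((0 : ℕ) : ℝ)) * (τ + Real.sqrt δ) ≤ D * (τ + Real.sqrt δ) := by
        refine mul_le_mul_of_nonneg_right ?_ h2
        push_cast
        linarith
      exact h3.trans h1
  have hPE' : ∫⁻ x, g x ∂(iid ν') ≤ ENNReal.ofReal (6 * v) := by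
    rw [hg, lintegral_indicator hEm, setLIntegral_one, ← ofReal_measureReal]
    exact ENNReal.ofReal_le_ofReal hPE
  -- the integral
  have hset : {x : ℕ → ℝ | ¬ gX K k q ϑ x (a, b)} = shift (a * k) ⁻¹' E := by
    ext x
    rw [hE, hv]
    change ¬ (cX k ϑ x a b - 3 * ϑ ^ (1 / 4 : ℝ) ≤ YY K k q x a b) ↔
      YY K k q (shift (a * k) x) 0 B < cX k ϑ (shift (a * k) x) 0 B - 3 * ϑ ^ (1 / 4 : ℝ)
    rw [not_le, YY_shift hUQB K k q x a b hab', cX_shift k ϑ x a b hab', hB]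
  have hsm : MeasurableSet (shift (a * k) ⁻¹' E) := (measurable_shift _) hEm
  obtain ⟨F, hF⟩ : ∃ F : (ℕ → ℝ) → ℝ≥0∞,
      F = E.indicator fun x => ENNReal.ofReal (Real.exp (γ * cX k ϑ x 0 B)) := ⟨_, rfl⟩
  have hFm : Measurable F := by
    rw [hF]
    exact ((hcXm.const_mul γ).exp.ennreal_ofReal).indicator hEm
  have hFg : ∀ x, F x = ENNReal.ofReal (Real.exp (γ * (((B : ℝ) + 1) * ϑ / 2))) *
      (ENNReal.ofReal (Real.exp (γ / 2 * H x 0 ((B + 1) * k))) * g x) := by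
    intro x
    rw [hF, hg]
    by_cases hxE : x ∈ E
    · rw [Set.indicator_of_mem hxE, Set.indicator_of_mem hxE, mul_one,
        ← ENNReal.ofReal_mul (Real.exp_pos _).le, ← Real.exp_add]
      congr 2
      rw [hcXe]
      ring
    · rw [Set.indicator_of_notMem hxE, Set.indicator_of_notMem hxE, mul_zero, mul_zero]
  have hMo : 0 ≤ Mo ν (γ / 2) := by
    unfold Mo
    exact integral_nonneg fun z => (Real.exp_pos _).le
  have hlint : ∫⁻ x in {x : ℕ → ℝ | ¬ gX K k q ϑ x (a, b)},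
      ENNReal.ofReal (Real.exp (γ * cX k ϑ x a b)) ∂(iid ν) ≤
        ENNReal.ofReal (Mo (rl ν k ϑ) γ ^ (B + 1) * (6 * v)) := by
    rw [hset, ← lintegral_indicator hsm]
    have h1 : (shift (a * k) ⁻¹' E).indicator
        (fun x : ℕ → ℝ => ENNReal.ofReal (Real.exp (γ * cX k ϑ x a b))) =
        fun x => F (shift (a * k) x) := by
      funext x
      rw [hF]
      by_cases hx : shift (a * k) x ∈ E
      · rw [Set.indicator_of_mem (show x ∈ shift (a * k) ⁻¹' E from hx),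
          Set.indicator_of_mem hx, cX_shift k ϑ x a b hab', hB]
      · rw [Set.indicator_of_notMem (show x ∉ shift (a * k) ⁻¹' E from hx),
          Set.indicator_of_notMem hx]
    rw [h1, (measurePreserving_shift ν (a * k)).lintegral_comp hFm]
    simp_rw [hFg]
    have hHm : Measurable (fun x : ℕ → ℝ =>
        ENNReal.ofReal (Real.exp (γ / 2 * H x 0 ((B + 1) * k)))) :=
      ((H_meas _ _).const_mul _).exp.ennreal_ofReal
    have hHg : Measurable (fun x : ℕ → ℝ =>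
        ENNReal.ofReal (Real.exp (γ / 2 * H x 0 ((B + 1) * k))) * g x) := hHm.mul hgm
    rw [lintegral_const_mul _ hHg, hcm ((B + 1) * k) g hgm hgd]
    calc ENNReal.ofReal (Real.exp (γ * (((B : ℝ) + 1) * ϑ / 2))) *
          (ENNReal.ofReal (Mo ν (γ / 2) ^ ((B + 1) * k)) * ∫⁻ x, g x ∂(iid ν'))
        ≤ ENNReal.ofReal (Real.exp (γ * (((B : ℝ) + 1) * ϑ / 2))) *
          (ENNReal.ofReal (Mo ν (γ / 2) ^ ((B + 1) * k)) * ENNReal.ofReal (6 * v)) := by
          gcongr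
      _ = ENNReal.ofReal (Mo (rl ν k ϑ) γ ^ (B + 1) * (6 * v)) := by
          rw [← ENNReal.ofReal_mul (by positivity), ← ENNReal.ofReal_mul (Real.exp_pos _).le]
          congr 1
          rw [hMoy γ, mul_pow, ← pow_mul, ← Real.exp_nat_mul, mul_comm k (B + 1)]
          have e1 : Real.exp (γ * (((B : ℝ) + 1) * ϑ / 2)) =
              Real.exp (((B + 1 : ℕ) : ℝ) * (γ * ϑ / 2)) := by
            congr 1
            push_cast
            ring
          rw [e1]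
          ring
  rw [← hv]
  rw [integral_eq_lintegral_of_nonneg_ae (Filter.Eventually.of_forall fun x =>
    (Real.exp_pos _).le)]
  · refine ENNReal.toReal_le_of_le_ofReal ?_ hlint
    rw [hMoy γ]
    positivity
  · have h1 : Measurable (fun x : ℕ → ℝ => cX k ϑ x a b) := by
      simp_rw [cX_eq k ϑ _ a b (by omega : a ≤ b + 1)]
      exact ((H_meas _ _).div_const 2).add_const _
    exact ((h1.const_mul γ).exp).aestronglyMeasurable

end Pool.Agent.H89.EX
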