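import Pool.Agent.H89.EX.QGB1

/-!
# Board exa_modules, row QGB: the logarithmic moment of the base
-/

set_option autoImplicit false

open MeasureTheory ProbabilityTheory Filter Topology
open scoped ENNReal
open Pool.Agent.H95 Pool.Agent.H95.Cop
open Pool.Agent.H96.Cop (ex pk measurable_ex ex_shift lint_mul_shift)
open Pool.Agent.H99.CE (NX w0 w1 BX CT TT Cc Gf lg tb cq)
open Pool.Agent.H98.SLN (RG gl TS)
open Pool.Agent.H98.EX

namespace Pool.Agent.H89.EX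

/-- the final numerical estimate -/
theorem fin_num {v1 a kk X sd s2 δ La κ κ' ρ n0 z1 z2 z3 D8 : ℝ} (hv : v1 ≤ kk * (X * s2))
    (ha0 : 0 ≤ a) (ha : a ≤ kk * (5 * sd)) (hsd : 0 ≤ sd) (hsd2 : sd * sd = δ) (hLa : 0 ≤ La)
    (hκ : 0 < κ) (hκ' : 0 < κ') (hρ : 0 < ρ) (hn0 : 0 < n0) (hz1 : 0 ≤ z1) (hz2 : 0 ≤ z2)
    (hz3 : 0 ≤ z3) (hD8 : D8 = 8 * sd * La) (hsm : D8 / κ ≤ 1 / 16) :
    v1 * (n0 * z1 + z2 + n0 * z3) + n0 * (D8 / (ρ * κ') * (2 * (a / κ)) +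
      D8 / κ * (2 * (a * (1 / (ρ * κ') + 8 / κ) + D8 / (ρ * κ') * (2 * (a / κ))))) ≤
    n0 * kk * (X * s2 * (z1 + z2 / n0 + z3) +
      40 * δ * La * (6 / (ρ * κ * κ') + 16 / κ ^ 2)) := by
  have hD0 : 0 ≤ D8 := by
    rw [hD8]
    positivity
  obtain ⟨P, hP⟩ : ∃ P : ℝ, P = 1 / (ρ * κ * κ') := ⟨_, rfl⟩
  obtain ⟨S, hS⟩ : ∃ S : ℝ, S = 1 / κ ^ 2 := ⟨_, rfl⟩
  have hP0 : 0 ≤ P := by
    rw [hP]
    positivity
  have hS0 : 0 ≤ S := by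
    rw [hS]
    positivity
  have e1 : D8 / (ρ * κ') * (2 * (a / κ)) = 2 * (D8 * a * P) := by
    rw [hP]
    field_simp
  have e2 : D8 / κ * (2 * (a * (1 / (ρ * κ') + 8 / κ) + 2 * (D8 * a * P))) =
      2 * (D8 * a * P) + 16 * (D8 * a * S) + D8 / κ * (4 * (D8 * a * P)) := by
    rw [hP, hS]
    field_simp
    ring
  have e3 : D8 / κ * (4 * (D8 * a * P)) ≤ 1 / 16 * (4 * (D8 * a * P)) :=
    mul_le_mul_of_nonneg_right hsm (by positivity)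
  have e4 : D8 * a ≤ kk * (40 * δ * La) := by
    calc D8 * a ≤ D8 * (kk * (5 * sd)) := mul_le_mul_of_nonneg_left ha hD0
      _ = kk * (40 * (sd * sd) * La) := by
          rw [hD8]
          ring
      _ = kk * (40 * δ * La) := by rw [hsd2]
  have e5 : D8 / (ρ * κ') * (2 * (a / κ)) +
      D8 / κ * (2 * (a * (1 / (ρ * κ') + 8 / κ) + D8 / (ρ * κ') * (2 * (a / κ)))) ≤
      kk * (40 * δ * La * (6 / (ρ * κ * κ') + 16 / κ ^ 2)) := by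
    rw [e1, e2]
    have e6 : kk * (40 * δ * La * (6 / (ρ * κ * κ') + 16 / κ ^ 2)) =
        kk * (40 * δ * La) * (6 * P + 16 * S) := by
      rw [hP, hS]
      ring
    rw [e6]
    have e7 : D8 * a * (6 * P + 16 * S) ≤ kk * (40 * δ * La) * (6 * P + 16 * S) :=
      mul_le_mul_of_nonneg_right e4 (by positivity)
    have e8 : 0 ≤ D8 * a * P := by positivity
    have e9 : D8 * a * (6 * P + 16 * S) = 6 * (D8 * a * P) + 16 * (D8 * a * S) := by ring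
    linarith
  have e10 : v1 * (n0 * z1 + z2 + n0 * z3) ≤ kk * (X * s2) * (n0 * z1 + z2 + n0 * z3) :=
    mul_le_mul_of_nonneg_right hv (by positivity)
  have e11 : kk * (X * s2) * (n0 * z1 + z2 + n0 * z3) =
      n0 * kk * (X * s2 * (z1 + z2 / n0 + z3)) := by
    field_simp
  have e12 := mul_le_mul_of_nonneg_left e5 hn0.le
  rw [mul_add (n0 * kk)]
  linarith

theorem pf_QGB (hPFM : Pool.Agent.H99.CE.T_PFM) (hCCT : Pool.Agent.H99.CE.T_CCT)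
    (hGLO : Pool.Agent.H99.CE.T_GLO) (hPHI : Pool.Agent.H99.CE.T_PHI) (hUD2 : T_UD2)
    (hBF2 : T_BF2) (hBS2 : T_BS2) (hNTM : T_NTM) (hLKX : T_LKX) (hMNG : T_MNG)
    (hNAX : T_NAX) : T_QGB := by
  have _ := hGLO
  have _ := hUD2
  have _ := hNAX
  intro K ν α c δ r ϑ ε τ ω s k q hBC R n0 e G hR hn0 he hsm hGB
  have := hBC.eg.prob
  have hδ0 := hBC.rx.rg.δ0
  have hδ1 : δ ≤ 1 / 2 ^ 20 := hBC.rx.rg.δ1
  have hα0 := hBC.rx.rg.α0
  have hα1 := hBC.rx.rg.α1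
  have hc := hBC.rx.rg.c0
  have hϑ0 := hBC.ϑ0
  have hϑ1 := hBC.ϑ1
  have hs := hBC.s0
  have hδs : δ ≤ 1 / 9 := hδ1.trans (by norm_num)
  have hα : 0 < 1 + α := by linarith
  have hk : 1 ≤ k := by
    rcases Nat.eq_zero_or_pos k with h | h
    · have := hBC.kϑ
      rw [h] at this
      norm_num at this
    · exact h
  have hkr : (1 : ℝ) ≤ k := by exact_mod_cast hk
  have hk0 : (0 : ℝ) < k := by linarith
  have hn0r : (1 : ℝ) ≤ n0 := by exact_mod_cast hn0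
  -- exponents
  obtain ⟨θ, hθ⟩ : ∃ θ : ℝ, θ = te α s := ⟨_, rfl⟩
  obtain ⟨ρ, hρ⟩ : ∃ ρ : ℝ, ρ = s / (1 + α) := ⟨_, rfl⟩
  have hρ0 : 0 < ρ := by
    rw [hρ]
    positivity
  have hθ2 : te α (2 * s) = θ + ρ := by
    rw [hθ, hρ]
    unfold te
    field_simp
    ring
  have hθa : 1 / 2 ≤ θ := by
    rw [hθ]
    exact hBC.t1
  have hθc : θ + ρ ≤ 5 / 8 := by
    rw [← hθ2]
    exact hBC.t2
  have hθb : θ ≤ 5 / 8 := by linarith
  have hθ0 : 0 < θ := by linarith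
  have hθα : (1 + α) * θ = 1 + s := by
    rw [hθ]
    unfold te
    field_simp
  have hρα : (1 + α) * ρ = s := by
    rw [hρ]
    field_simp
  obtain ⟨κ, hκd⟩ : ∃ κ : ℝ, κ = kap ϑ ε θ τ δ := ⟨_, rfl⟩
  obtain ⟨κ', hκd'⟩ : ∃ κ' : ℝ, κ' = kap ϑ ε (θ + ρ) τ δ := ⟨_, rfl⟩
  have hκ : 0 < κ := by
    rw [hκd, hθ]
    exact hBC.κ1
  have hκ' : 0 < κ' := by
    rw [hκd', ← hθ2]
    exact hBC.κ2
  rw [← hθ, hθ2, ← hρ, ← hκd, ← hκd'] at hGB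
  rw [← hθ, ← hκd] at hsm
  -- sizes
  obtain ⟨hV, hcq, hs1, hs2, hs3, hX⟩ := sizes hBC.rx hϑ0 hϑ1 hBC.rϑ hk
  have hp2 : (0 : ℝ) < (k : ℝ) ^ (1 + α) := Real.rpow_pos_of_pos hk0 _
  have hLa : 0 ≤ La ϑ n0 := by
    unfold La
    have h1 : 0 ≤ Real.log n0 := Real.log_nonneg hn0r
    have h2 : 0 ≤ Real.log (16 / ϑ) := by
      refine Real.log_nonneg ?_
      rw [le_div_iff₀ hϑ0]
      linarith
    linarith
  obtain ⟨t0, ht⟩ : ∃ t0 : ℝ, t0 = tb α c ϑ (n0 * k) := ⟨_, rfl⟩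
  have hnk : (k : ℝ) ^ (1 + α) ≤ ((n0 * k : ℕ) : ℝ) ^ (1 + α) := by
    refine Real.rpow_le_rpow hk0.le ?_ hα.le
    push_cast
    exact le_mul_of_one_le_left hk0.le hn0r
  have hV2 : Real.exp 2 * VH K k ϑ ≤ t0 := by
    rw [ht]
    unfold tb
    rw [le_div_iff₀ hcq]
    refine (hs2.trans ?_).trans hnk
    have h1 : 5 * δ ≤ 1 := by linarith
    exact (mul_le_mul_of_nonneg_left h1 hp2.le).trans (le_of_eq (mul_one _))
  have he2 : 1 ≤ Real.exp 2 := Real.one_le_exp (by norm_num)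
  have hVt : VH K k ϑ ≤ t0 := (le_mul_of_one_le_left hV.le he2).trans hV2
  have ht0 : 0 < t0 := hV.trans_le hVt
  have hVe : 0 < Real.exp 2 * VH K k ϑ := by positivity
  obtain ⟨a, ha⟩ : ∃ a : ℝ, a = (Real.exp 2 * VH K k ϑ) ^ θ := ⟨_, rfl⟩
  obtain ⟨a2, ha2⟩ : ∃ a2 : ℝ, a2 = (Real.exp 2 * VH K k ϑ) ^ (θ + ρ) := ⟨_, rfl⟩
  have ha0 : 0 ≤ a := by
    rw [ha]
    positivity
  have ha20 : 0 ≤ a2 := by
    rw [ha2]
    positivity
  obtain ⟨D8, hD8⟩ : ∃ D8 : ℝ, D8 = 8 * Real.sqrt δ * La ϑ n0 := ⟨_, rfl⟩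
  have hD80 : 0 ≤ D8 := by
    rw [hD8]
    positivity
  have hsm' : D8 / κ ≤ 1 / 16 := by
    have h1 : 32 * Real.sqrt δ * La ϑ n0 / κ = 4 * (D8 / κ) := by
      rw [hD8]
      ring
    rw [h1] at hsm
    linarith
  have hta : t0 ^ (-ρ) * a2 ≤ a := by
    have h1 : (Real.exp 2 * VH K k ϑ) ^ ρ ≤ t0 ^ ρ := Real.rpow_le_rpow hVe.le hV2 hρ0.le
    have h2 : 0 < t0 ^ ρ := Real.rpow_pos_of_pos ht0 _
    rw [ha2, ha, Real.rpow_add hVe, Real.rpow_neg ht0.le, ← mul_assoc, mul_comm _ (_ ^ θ),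
      mul_assoc]
    refine mul_le_of_le_one_right (by positivity) ?_
    rw [inv_mul_le_one₀ h2]
    exact h1
  have h9 : 9 * δ ≤ 1 := by linarith
  have hsq9 : 1 * Real.sqrt (9 * δ) ≤ 8 * Real.sqrt δ := by
    rw [one_mul, Real.sqrt_mul (by norm_num), show (9 : ℝ) = 3 ^ 2 by norm_num,
      Real.sqrt_sq (by norm_num)]
    exact mul_le_mul_of_nonneg_right (by norm_num) (Real.sqrt_nonneg _)
  have hgk : 0 ≤ c * (k : ℝ) ^ (-(1 + α)) := by positivity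
  have hgen : ∀ φ : ℝ, 1 / 2 ≤ φ → φ ≤ 5 / 8 → (Real.exp 2 * VH K k ϑ) ^ φ *
      ((c * (k : ℝ) ^ (-(1 + α))) ^ φ * La ϑ n0) ≤ D8 := by
    intro φ h1 h2
    rw [← mul_assoc, ← Real.mul_rpow hVe.le hgk, hD8]
    refine mul_le_mul_of_nonneg_right ?_ hLa
    exact (pw (by positivity) hs3 le_rfl (by linarith) h9 h1 (by linarith)).trans hsq9
  -- the moments
  have hF : ∀ p r i, ∫⁻ x, NX (w0 K k k) k p r i x ^ θ ∂(iid ν) ≤
      ENNReal.ofReal (a * Real.exp (-(κ * ((i : ℝ) + 1)))) := by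
    intro p r' i
    rw [ha, hκd]
    exact hNTM K ν α c δ r ϑ ε τ ω s k q hBC θ hθa hθb p r' i
  have hF2 : ∀ p r i, ∫⁻ x, NX (w0 K k k) k p r i x ^ (θ + ρ) ∂(iid ν) ≤
      ENNReal.ofReal (a2 * Real.exp (-(κ' * ((i : ℝ) + 1)))) := by
    intro p r' i
    rw [ha2, hκd']
    exact hNTM K ν α c δ r ϑ ε τ ω s k q hBC (θ + ρ) (by linarith) hθc p r' i
  obtain ⟨hga, hgb, hlk⟩ := hLKX K ν α c δ r ϑ ε τ ω s k q hBC n0 hn0
  -- the bound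
  have hmain : ∀ J : ℕ, ∑ j ∈ Finset.range J,
      ∫⁻ x, Gf t0 θ (BX (w1 K (n0 * k)) (n0 * k) j x) ∂(iid ν) ≤
      ENNReal.ofReal (VH K k ϑ ^ θ * (n0 *
        (Q2 (rl ν k ϑ) ϑ θ τ R * (ad ϑ ω / κ ^ 2 + 4 / κ) + Real.exp (2 * R + 9) / κ) +
        4 * R * (ad ϑ ω / κ ^ 2 + 40 / κ) + n0 * (2 * R * (2 * R * ad ϑ ω + 40)))) +
      n0 * (ENNReal.ofReal (D8 / (ρ * κ')) * ENNReal.ofReal (2 * (a / κ)) +
        ENNReal.ofReal (D8 / κ) * ENNReal.ofReal (2 * (a * (1 / (ρ * κ') + 8 / κ) +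
          D8 / (ρ * κ') * (2 * (a / κ))))) := by
    intro J
    have hB := hBF2 K n0 k (gx α c k n0) (gy α c k) hk hn0 hga hgb J
    have hBV := base_BV hPFM hCCT hPHI ν K k n0 J hk hn0 (gx α c k n0) (gy α c k)
      (fun j p => CT (NX (w1 K (n0 * k)) k p false) (TT n0 j)) (fun j hj => (hB j hj).1)
      (fun D => by
        unfold gx
        split_ifs
        · exact ENNReal.ofReal_ne_top
        · exact ENNReal.zero_ne_top)
      (fun D => ENNReal.ofReal_ne_top) t0 θ ρ κ κ' a a2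
      ((c * (k : ℝ) ^ (-(1 + α))) ^ θ * La ϑ n0)
      ((c * (k : ℝ) ^ (-(1 + α))) ^ (θ + ρ) * La ϑ n0) D8 ht0 hθ0 hθb hρ0 hκ hκ' ha0 ha20
      hD80 hF hF2
      (hlk θ hθa hθb (by rw [hθα]; linarith) (J * n0)).1
      (hlk (θ + ρ) (by linarith) hθc (by rw [mul_add, hθα, hρα]; linarith) (J * n0)).1
      hta (by rw [ha]; exact hgen θ hθa hθb) (by rw [ha2]; exact hgen _ (by linarith) hθc) hsm'
    have hWR := (hPFM.2 K).2 k k
    have hBXm := (hPFM.1 _ hWR).2.1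
    refine (hBS2 ν k n0 J _ _ _ _ _ _ _ _ _ _ _ _ _ _ hBV
      (fun j => BX (w1 K (n0 * k)) (n0 * k) j)
      (fun j x => ∑ c ∈ Finset.range n0, ∑ c' ∈ TT n0 j, if c ≤ c' then
        BX (w0 K k k) k (c' - c) (shift (c * k) x) else 0) ?_ ?_).trans ?_
    · intro j
      refine Finset.measurable_sum _ fun c _ => Finset.measurable_sum _ fun c' _ => ?_
      split_ifs
      · exact ((hBXm k (c' - c)).1).comp (measurable_shift _)
      · exact measurable_const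
    · intro j hj x
      exact (hB j hj).2 x
    · refine add_le_add ?_ le_rfl
      have h1 := hMNG K ν α c δ r ϑ ε τ ω s k q hBC R n0 J t0 hR hn0 hVt
      rw [← hθ, ← hκd] at h1
      exact h1
  -- the final estimate
  have hQv : 0 ≤ Q2 (rl ν k ϑ) ϑ θ τ R := by
    unfold Q2
    positivity
  have had : 0 ≤ ad ϑ ω := by
    unfold ad
    have := hBC.ω0
    positivity
  have hcqθ : 0 < cq c ϑ ^ (-θ) := Real.rpow_pos_of_pos hcq _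
  obtain ⟨kk, hkk⟩ : ∃ kk : ℝ, kk = (k : ℝ) * (k : ℝ) ^ s * cq c ϑ ^ (-θ) := ⟨_, rfl⟩
  have hkk0 : 0 < kk := by
    rw [hkk]
    positivity
  have hkθ : ((k : ℝ) ^ (1 + α)) ^ θ = (k : ℝ) * (k : ℝ) ^ s := by
    rw [← Real.rpow_mul hk0.le, hθα, Real.rpow_add hk0, Real.rpow_one]
  have hsize : ∀ V Y y : ℝ, 0 ≤ V → V * cq c ϑ ≤ (k : ℝ) ^ (1 + α) * (Y * y) → 1 ≤ Y →
      0 < y → y ≤ 1 → V ^ θ ≤ kk * (Y * Real.sqrt y) := by
    intro V Y y hV0 h1 hY hy0 hy1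
    have h2 : V ^ θ * cq c ϑ ^ θ ≤ ((k : ℝ) ^ (1 + α)) ^ θ * (Y * Real.sqrt y) := by
      rw [← Real.mul_rpow hV0 hcq.le]
      calc (V * cq c ϑ) ^ θ ≤ ((k : ℝ) ^ (1 + α) * (Y * y)) ^ θ :=
            Real.rpow_le_rpow (by positivity) h1 hθ0.le
        _ = ((k : ℝ) ^ (1 + α)) ^ θ * (Y * y) ^ θ :=
            Real.mul_rpow hp2.le (by positivity)
        _ ≤ ((k : ℝ) ^ (1 + α)) ^ θ * (Y * Real.sqrt y) :=
            mul_le_mul_of_nonneg_left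
              (pw (by positivity) le_rfl hY hy0 hy1 hθa (by linarith)) (by positivity)
    have h3 : 0 < cq c ϑ ^ θ := Real.rpow_pos_of_pos hcq _
    rw [hkθ] at h2
    rw [hkk, Real.rpow_neg hcq.le]
    rw [← div_eq_mul_inv, div_mul_eq_mul_div, le_div_iff₀ h3]
    exact h2
  have hv1 : VH K k ϑ ^ θ ≤ kk * ((1 + 8 * ϑ) * (1 + ϑ) ^ 3 * Real.sqrt (δ / 2)) :=
    hsize _ _ _ hV.le hs1 hX (by positivity) (by linarith)
  have ha1 : a ≤ kk * (5 * Real.sqrt δ) := by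
    rw [ha]
    exact hsize _ _ _ hVe.le hs2 (by norm_num) hδ0 (by linarith)
  have hfn := fin_num (v1 := VH K k ϑ ^ θ) (a := a) (kk := kk) (κ := κ) (κ' := κ') (ρ := ρ)
    (n0 := n0) (z1 := Q2 (rl ν k ϑ) ϑ θ τ R * (ad ϑ ω / κ ^ 2 + 4 / κ) +
      Real.exp (2 * R + 9) / κ) (z2 := 4 * R * (ad ϑ ω / κ ^ 2 + 40 / κ))
    (z3 := 2 * R * (2 * R * ad ϑ ω + 40)) hv1 ha0 ha1 (Real.sqrt_nonneg δ)
    (Real.mul_self_sqrt hδ0.le) hLa hκ hκ' hρ0 (by linarith) (by positivity) (by positivity)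
    (by positivity) hD8 hsm'
  have hGBe : (1 + 8 * ϑ) * (1 + ϑ) ^ 3 * Real.sqrt (δ / 2) *
      ((Q2 (rl ν k ϑ) ϑ θ τ R * (ad ϑ ω / κ ^ 2 + 4 / κ) + Real.exp (2 * R + 9) / κ) +
        4 * R * (ad ϑ ω / κ ^ 2 + 40 / κ) / n0 + 2 * R * (2 * R * ad ϑ ω + 40)) +
      40 * δ * La ϑ n0 * (6 / (ρ * κ * κ') + 16 / κ ^ 2) ≤ G := by
    refine le_trans (le_of_eq ?_) hGB
    unfold GB
    ring
  have hT0 : 0 ≤ VH K k ϑ ^ θ * (n0 *
        (Q2 (rl ν k ϑ) ϑ θ τ R * (ad ϑ ω / κ ^ 2 + 4 / κ) + Real.exp (2 * R + 9) / κ) +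
        4 * R * (ad ϑ ω / κ ^ 2 + 40 / κ) + n0 * (2 * R * (2 * R * ad ϑ ω + 40))) := by
    positivity
  have htot : ∀ J : ℕ, ∑ j ∈ Finset.range J,
      ∫⁻ x, Gf t0 θ (BX (w1 K (n0 * k)) (n0 * k) j x) ∂(iid ν) ≤
      ENNReal.ofReal (n0 * kk * G) := by
    intro J
    refine (hmain J).trans ?_
    have hn : (n0 : ℝ≥0∞) = ENNReal.ofReal (n0 : ℝ) := by
      rw [ENNReal.ofReal_natCast]
    rw [hn, ← ENNReal.ofReal_mul (by positivity), ← ENNReal.ofReal_mul (by positivity),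
      ← ENNReal.ofReal_add (by positivity) (by positivity), ← ENNReal.ofReal_mul (by positivity),
      ← ENNReal.ofReal_add hT0 (by positivity)]
    refine ENNReal.ofReal_le_ofReal (hfn.trans ?_)
    exact mul_le_mul_of_nonneg_left hGBe (by positivity)
  have hsum : ∑' b : ℕ, ∫⁻ x, Gf t0 θ (BX (w1 K (n0 * k)) (n0 * k) b x) ∂(iid ν) ≤
      ENNReal.ofReal (n0 * kk * G) := ENNReal.tsum_le_of_sum_range_le htot
  unfold QGe
  rw [← hθ, ← ht]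
  have hue : ue e α s c ϑ k (n0 * k) = e * (n0 * kk) := by
    unfold ue
    rw [← hθ, hkk]
    push_cast
    ring
  have hG0 : 0 ≤ G := by
    refine le_trans ?_ hGBe
    positivity
  refine ENNReal.div_le_of_le_mul ?_
  rw [hue, ← ENNReal.ofReal_mul hG0]
  calc ENNReal.ofReal e *
        ∑' b : ℕ, ∫⁻ x, Gf t0 θ (BX (w1 K (n0 * k)) (n0 * k) b x) ∂(iid ν)
      ≤ ENNReal.ofReal e * ENNReal.ofReal (n0 * kk * G) := mul_le_mul' le_rfl hsum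
    _ = ENNReal.ofReal (G * (e * (n0 * kk))) := by
        rw [← ENNReal.ofReal_mul he.le]
        congr 1
        ring

end Pool.Agent.H89.EX
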