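import Pool.Agent.H98.EX.BTargets

/-!
# Board exa_modules, row QGB: lemmas
-/

set_option autoImplicit false

open MeasureTheory ProbabilityTheory Filter Topology
open scoped ENNReal
open Pool.Agent.H95 Pool.Agent.H95.Cop
open Pool.Agent.H96.Cop (ex pk measurable_ex ex_shift lint_mul_shift)
open Pool.Agent.H99.CE (NX w0 w1 BX CT TT Cc Gf lg tb cq)
open Pool.Agent.H98.SLN (RG gl TS)
open Pool.Agent.H98.EX

namespace Pool.Agent.H89.EX

/-- powers of small numbers -/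
theorem pw {w Y y θ : ℝ} (hw : 0 ≤ w) (hwY : w ≤ Y * y) (hY : 1 ≤ Y) (hy0 : 0 < y)
    (hy1 : y ≤ 1) (h1 : 1 / 2 ≤ θ) (h2 : θ ≤ 1) : w ^ θ ≤ Y * Real.sqrt y := by
  have hθ : 0 ≤ θ := by linarith
  calc w ^ θ ≤ (Y * y) ^ θ := Real.rpow_le_rpow hw hwY hθ
    _ = Y ^ θ * y ^ θ := Real.mul_rpow (by linarith) hy0.le
    _ ≤ Y ^ (1 : ℝ) * y ^ (1 / 2 : ℝ) :=
        mul_le_mul (Real.rpow_le_rpow_of_exponent_le hY h2)
          (Real.rpow_le_rpow_of_exponent_ge hy0 hy1 h1) (by positivity) (by positivity)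
    _ = Y * Real.sqrt y := by rw [Real.rpow_one, Real.sqrt_eq_rpow]

/-- geometric sums -/
theorem geo {κ : ℝ} (hκ : 0 < κ) (n : ℕ) :
    ∑ i ∈ Finset.range n, Real.exp (-(κ * ((i : ℝ) + 1))) ≤ 1 / κ := by
  have h : ∑ i ∈ Finset.range n, Real.exp (-(κ * ((i : ℝ) + 1))) ≤
      (1 - Real.exp (-(κ * n))) / κ := by
    induction n with
    | zero => simp
    | succ n ih =>
      rw [Finset.sum_range_succ]
      have h1 : Real.exp (-(κ * n)) = Real.exp κ * Real.exp (-(κ * ((n : ℝ) + 1))) := by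
        rw [← Real.exp_add]
        congr 1
        ring
      have h2 := Real.add_one_le_exp κ
      have h3 := Real.exp_pos (-(κ * ((n : ℝ) + 1)))
      rw [le_div_iff₀ hκ, h1] at ih
      rw [le_div_iff₀ hκ, add_mul]
      push_cast
      have h4 := mul_le_mul_of_nonneg_right h2 h3.le
      linarith
  refine h.trans (div_le_div_of_nonneg_right ?_ hκ.le)
  have := Real.exp_pos (-(κ * n))
  linarith

theorem geoE {κ a : ℝ} (hκ : 0 < κ) (ha : 0 ≤ a) (n : ℕ) :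
    ∑ i ∈ Finset.range n, ENNReal.ofReal (a * Real.exp (-(κ * ((i : ℝ) + 1)))) ≤
      ENNReal.ofReal (a / κ) := by
  rw [← ENNReal.ofReal_sum_of_nonneg fun i _ => by positivity]
  refine ENNReal.ofReal_le_ofReal ?_
  rw [← Finset.mul_sum]
  calc a * ∑ i ∈ Finset.range n, Real.exp (-(κ * ((i : ℝ) + 1))) ≤ a * (1 / κ) :=
        mul_le_mul_of_nonneg_left (geo hκ n) ha
    _ = a / κ := by ring

/-- logarithm against a power -/
theorem lg_pow {t θ ρ : ℝ} (ht : 0 < t) (hθ : 0 < θ) (hρ : 0 < ρ) {x : ℝ≥0∞} (hx : x ≠ ∞) :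
    x ^ θ * lg t x ≤ ENNReal.ofReal (t ^ (-ρ) / ρ) * x ^ (θ + ρ) := by
  rcases eq_or_ne x 0 with rfl | h0
  · rw [ENNReal.zero_rpow_of_pos hθ, zero_mul]
    exact bot_le
  · have hy : 0 < x.toReal := ENNReal.toReal_pos h0 hx
    obtain ⟨y, hyx⟩ : ∃ y : ℝ, y = x.toReal := ⟨_, rfl⟩
    have hx' : x = ENNReal.ofReal y := by rw [hyx, ENNReal.ofReal_toReal hx]
    rw [← hyx] at hy
    rw [hx']
    unfold lg
    rw [ENNReal.toReal_ofReal hy.le, ENNReal.ofReal_rpow_of_pos hy,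
      ENNReal.ofReal_rpow_of_pos hy, ← ENNReal.ofReal_mul (by positivity),
      ← ENNReal.ofReal_mul (by positivity)]
    refine ENNReal.ofReal_le_ofReal ?_
    have h := Real.log_le_rpow_div (div_pos hy ht).le hρ
    calc y ^ θ * Real.log (y / t) ≤ y ^ θ * ((y / t) ^ ρ / ρ) :=
          mul_le_mul_of_nonneg_left h (by positivity)
      _ = t ^ (-ρ) / ρ * y ^ (θ + ρ) := by
          rw [Real.div_rpow hy.le ht.le, Real.rpow_neg ht.le, Real.rpow_add hy]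
          field_simp

theorem lg_mul {t : ℝ} (ht : 0 < t) {z y : ℝ≥0∞} (hz : z ≠ ∞) (hy : y ≠ ∞) :
    lg t (z * y) ≤ lg 1 z + lg t y := by
  rcases eq_or_ne z 0 with rfl | hz0
  · rw [zero_mul]
    unfold lg
    simp
  rcases eq_or_ne y 0 with rfl | hy0
  · rw [mul_zero]
    unfold lg
    simp
  have h1 := ENNReal.toReal_pos hz0 hz
  have h2 := ENNReal.toReal_pos hy0 hy
  unfold lg
  rw [ENNReal.toReal_mul, mul_div_assoc, Real.log_mul h1.ne' (div_pos h2 ht).ne', div_one]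
  exact ENNReal.ofReal_add_le

theorem measurable_lg (t : ℝ) : Measurable (lg t) := by
  unfold lg
  exact ENNReal.measurable_ofReal.comp (Real.measurable_log.comp
    (ENNReal.measurable_toReal.div_const t))

theorem Gf_le (hPHI : Pool.Agent.H99.CE.T_PHI) {t θ : ℝ} (ht : 0 < t) (hθ : 0 < θ)
    (hθ1 : θ ≤ 5 / 8) {x : ℝ≥0∞} (hx : x ≠ ∞) : Gf t θ x ≤ x ^ θ * (lg t x + 8) := by
  have h := hPHI t t θ 1 x ht le_rfl hθ (by linarith) zero_le_one hx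
  rw [ENNReal.ofReal_one, one_mul, div_self ht.ne', Real.log_one, mul_zero, ENNReal.ofReal_zero,
    zero_mul, add_zero, one_mul] at h
  refine h.trans ?_
  have h8 : ENNReal.ofReal (2 * 1 / (1 - θ)) ≤ 8 := by
    have h1 : 2 * 1 / (1 - θ) ≤ 8 := by
      rw [div_le_iff₀ (by linarith)]
      linarith
    calc ENNReal.ofReal (2 * 1 / (1 - θ)) ≤ ENNReal.ofReal 8 := ENNReal.ofReal_le_ofReal h1
      _ = 8 := by simp
  gcongr

/-- sums of the moments of the stretches followed by a long excursion -/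
theorem links (ν : Measure ℝ) [IsProbabilityMeasure ν] (k n : ℕ) (θ κ a b : ℝ)
    (hθ : 0 ≤ θ) (hκ : 0 < κ) (ha : 0 ≤ a) (N : Bool → Bool → ℕ → (ℕ → ℝ) → ℝ≥0∞)
    (hN : ∀ p r i, Measurable (N p r i) ∧ DepLt ((i + 1) * k) (N p r i)) (ga gb : ℕ → ℝ≥0∞)
    (hF : ∀ p r i, ∫⁻ x, N p r i x ^ θ ∂(iid ν) ≤
      ENNReal.ofReal (a * Real.exp (-(κ * ((i : ℝ) + 1)))))
    (hL : ∑ D ∈ Finset.Icc 1 n,
      (ga D ^ θ + gb D ^ θ * ∫⁻ x, ex 0 ((D - 1) * k) x ^ θ ∂(iid ν)) ≤ ENNReal.ofReal b)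
    (p : Bool) :
    ∑ i ∈ Finset.range n, ∑ D ∈ Finset.Icc 1 n,
      (∫⁻ x, (N p false i x * ga D) ^ θ ∂(iid ν) +
        ∫⁻ x, (N p true i x * (gb D * ex ((i + 1) * k) ((i + D) * k) x)) ^ θ ∂(iid ν)) ≤
      ENNReal.ofReal (a / κ * b) := by
  have h1 : ∀ i, ∀ D ∈ Finset.Icc 1 n,
      (∫⁻ x, (N p false i x * ga D) ^ θ ∂(iid ν) +
        ∫⁻ x, (N p true i x * (gb D * ex ((i + 1) * k) ((i + D) * k) x)) ^ θ ∂(iid ν)) ≤
      ENNReal.ofReal (a * Real.exp (-(κ * ((i : ℝ) + 1)))) *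
        (ga D ^ θ + gb D ^ θ * ∫⁻ x, ex 0 ((D - 1) * k) x ^ θ ∂(iid ν)) := by
    intro i D hD
    have hD1 := (Finset.mem_Icc.1 hD).1
    have e1 : ∫⁻ x, (N p false i x * ga D) ^ θ ∂(iid ν) =
        (∫⁻ x, N p false i x ^ θ ∂(iid ν)) * ga D ^ θ := by
      rw [← lintegral_mul_const _ ((hN p false i).1.pow_const θ)]
      exact lintegral_congr fun x => ENNReal.mul_rpow_of_nonneg _ _ hθ
    have hm : Measurable fun x : ℕ → ℝ => ex 0 ((D - 1) * k) x ^ θ :=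
      (measurable_ex 0 ((D - 1) * k)).pow_const θ
    have e2 : ∫⁻ x, (N p true i x * (gb D * ex ((i + 1) * k) ((i + D) * k) x)) ^ θ ∂(iid ν) =
        (∫⁻ x, N p true i x ^ θ ∂(iid ν)) *
          (gb D ^ θ * ∫⁻ x, ex 0 ((D - 1) * k) x ^ θ ∂(iid ν)) := by
      rw [← lintegral_const_mul _ hm]
      have e3 := lint_mul_shift ν (t := (i + 1) * k) (f := fun x => N p true i x ^ θ)
        (g := fun x => gb D ^ θ * ex 0 ((D - 1) * k) x ^ θ)
        (fun x x' h => by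
          change N p true i x ^ θ = N p true i x' ^ θ
          rw [(hN p true i).2 x x' h])
        ((hN p true i).1.pow_const θ) (hm.const_mul _)
      rw [← e3]
      refine lintegral_congr fun x => ?_
      rw [ex_shift, zero_add, ← Nat.add_mul, ENNReal.mul_rpow_of_nonneg _ _ hθ,
        ENNReal.mul_rpow_of_nonneg _ _ hθ]
      rw [show D - 1 + (i + 1) = i + D by omega]
    rw [e1, e2, mul_add]
    exact add_le_add (mul_le_mul_left (hF p false i) _) (mul_le_mul_left (hF p true i) _)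
  calc ∑ i ∈ Finset.range n, ∑ D ∈ Finset.Icc 1 n,
      (∫⁻ x, (N p false i x * ga D) ^ θ ∂(iid ν) +
        ∫⁻ x, (N p true i x * (gb D * ex ((i + 1) * k) ((i + D) * k) x)) ^ θ ∂(iid ν))
      ≤ ∑ i ∈ Finset.range n, ∑ D ∈ Finset.Icc 1 n,
        ENNReal.ofReal (a * Real.exp (-(κ * ((i : ℝ) + 1)))) *
        (ga D ^ θ + gb D ^ θ * ∫⁻ x, ex 0 ((D - 1) * k) x ^ θ ∂(iid ν)) :=
        Finset.sum_le_sum fun i _ => Finset.sum_le_sum (h1 i)
    _ = (∑ i ∈ Finset.range n, ENNReal.ofReal (a * Real.exp (-(κ * ((i : ℝ) + 1))))) *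
        ∑ D ∈ Finset.Icc 1 n,
          (ga D ^ θ + gb D ^ θ * ∫⁻ x, ex 0 ((D - 1) * k) x ^ θ ∂(iid ν)) := by
        rw [Finset.sum_mul]
        exact Finset.sum_congr rfl fun i _ => (Finset.mul_sum _ _ _).symm
    _ ≤ ENNReal.ofReal (a / κ) * ENNReal.ofReal b := mul_le_mul' (geoE hκ ha n) hL
    _ = ENNReal.ofReal (a / κ * b) := (ENNReal.ofReal_mul (by positivity)).symm

theorem exp_two_le : Real.exp 2 ≤ 7.39 := by
  have h := Real.exp_one_lt_d9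
  have h1 : Real.exp 2 = Real.exp 1 ^ 2 := by
    rw [← Real.exp_nat_mul]
    norm_num
  rw [h1]
  have h0 := Real.exp_pos 1
  nlinarith

/-- sizes -/
theorem sizes {K : PMF ℕ} {α c δ r ϑ : ℝ} {k q : ℕ} (hrx : RX K α c δ r k q) (h0 : 0 < ϑ)
    (h1 : ϑ ≤ 1 / 64) (hr : r ≤ ϑ / 8) (hk : 1 ≤ k) :
    0 < VH K k ϑ ∧ 0 < cq c ϑ ∧
    VH K k ϑ * cq c ϑ ≤ (k : ℝ) ^ (1 + α) * ((1 + 8 * ϑ) * (1 + ϑ) ^ 3 * (δ / 2)) ∧
    Real.exp 2 * VH K k ϑ * cq c ϑ ≤ (k : ℝ) ^ (1 + α) * (5 * δ) ∧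
    Real.exp 2 * VH K k ϑ * (c * (k : ℝ) ^ (-(1 + α))) ≤ 1 * (9 * δ) ∧
    1 ≤ (1 + 8 * ϑ) * (1 + ϑ) ^ 3 := by
  have hkr : (1 : ℝ) ≤ k := by exact_mod_cast hk
  have hk0 : (0 : ℝ) < k := by linarith
  have hc := hrx.rg.c0
  have hδ := hrx.rg.δ0
  have hr0 := hrx.r0
  have hp : (0 : ℝ) < (k : ℝ) ^ (1 - α) := Real.rpow_pos_of_pos hk0 _
  have hp2 : (0 : ℝ) < (k : ℝ) ^ (1 + α) := Real.rpow_pos_of_pos hk0 _
  have hTS : 0 < TS K k := by
    have h2 := hrx.v1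
    have h3 : 0 < c * (k : ℝ) ^ (1 - α) := mul_pos hc hp
    have h4 : 0 < (1 + r) * (δ * TS K k) := by linarith
    have h5 : 0 < δ * TS K k := (pos_iff_pos_of_mul_pos h4).1 (by linarith)
    exact (pos_iff_pos_of_mul_pos h5).1 hδ
  have hk2 : (k : ℝ) ^ 2 = (k : ℝ) ^ (1 + α) * (k : ℝ) ^ (1 - α) := by
    rw [← Real.rpow_add hk0, ← Real.rpow_natCast]
    congr 1
    push_cast
    ring
  have hcq : 0 < cq c ϑ := by
    unfold cq
    positivity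
  have hV : 0 < VH K k ϑ := by
    unfold VH
    positivity
  -- the basic inequality
  have hb : (k : ℝ) ^ 2 / TS K k * c ≤ (k : ℝ) ^ (1 + α) * ((1 + r) * δ) := by
    rw [div_mul_eq_mul_div, div_le_iff₀ hTS, hk2]
    have h2 := mul_le_mul_of_nonneg_left hrx.v1 hp2.le
    linarith
  have hX : (1 + 8 * ϑ) * (1 + ϑ) ^ 3 ≤ 1.18 := by
    have e1 : (1 + 8 * ϑ) ≤ 1.125 := by linarith
    have e2 : (1 + ϑ) ^ 3 ≤ (65 / 64 : ℝ) ^ 3 := pow_le_pow_left₀ (by linarith) (by linarith) 3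
    calc (1 + 8 * ϑ) * (1 + ϑ) ^ 3 ≤ 1.125 * (65 / 64 : ℝ) ^ 3 :=
          mul_le_mul e1 e2 (by positivity) (by norm_num)
      _ ≤ 1.18 := by norm_num
  have hX1 : 1 ≤ (1 + 8 * ϑ) * (1 + ϑ) ^ 3 := by
    have e1 : (1 : ℝ) ≤ 1 + 8 * ϑ := by linarith
    have e2 : (1 : ℝ) ≤ (1 + ϑ) ^ 3 := one_le_pow₀ (by linarith)
    exact one_le_mul_of_one_le_of_one_le e1 e2
  have h3 : VH K k ϑ * cq c ϑ ≤
      (k : ℝ) ^ (1 + α) * ((1 + 8 * ϑ) * (1 + ϑ) ^ 3 * (δ / 2)) := by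
    have e1 : VH K k ϑ * cq c ϑ = (1 + 8 * ϑ) * (1 + ϑ) ^ 2 / 2 *
        ((k : ℝ) ^ 2 / TS K k * c) := by
      unfold VH cq
      ring
    rw [e1]
    calc (1 + 8 * ϑ) * (1 + ϑ) ^ 2 / 2 * ((k : ℝ) ^ 2 / TS K k * c)
        ≤ (1 + 8 * ϑ) * (1 + ϑ) ^ 2 / 2 * ((k : ℝ) ^ (1 + α) * ((1 + r) * δ)) :=
          mul_le_mul_of_nonneg_left hb (by positivity)
      _ ≤ (1 + 8 * ϑ) * (1 + ϑ) ^ 2 / 2 * ((k : ℝ) ^ (1 + α) * ((1 + ϑ) * δ)) := by
          have e2 : (1 + r) * δ ≤ (1 + ϑ) * δ :=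
            mul_le_mul_of_nonneg_right (by linarith) hδ.le
          exact mul_le_mul_of_nonneg_left (mul_le_mul_of_nonneg_left e2 hp2.le) (by positivity)
      _ = _ := by ring
  have he := exp_two_le
  have he0 := Real.exp_pos 2
  refine ⟨hV, hcq, h3, ?_, ?_, hX1⟩
  · calc Real.exp 2 * VH K k ϑ * cq c ϑ = Real.exp 2 * (VH K k ϑ * cq c ϑ) := by ring
      _ ≤ 7.39 * ((k : ℝ) ^ (1 + α) * (1.18 * (δ / 2))) := by
          refine mul_le_mul he (h3.trans ?_) (by positivity) (by norm_num)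
          exact mul_le_mul_of_nonneg_left (mul_le_mul_of_nonneg_right hX (by linarith)) hp2.le
      _ = (k : ℝ) ^ (1 + α) * (7.39 * 1.18 / 2 * δ) := by ring
      _ ≤ (k : ℝ) ^ (1 + α) * (5 * δ) := by
          refine mul_le_mul_of_nonneg_left ?_ hp2.le
          exact mul_le_mul_of_nonneg_right (by norm_num) hδ.le
  · have e1 : Real.exp 2 * VH K k ϑ * (c * (k : ℝ) ^ (-(1 + α))) =
        Real.exp 2 * ((1 + 8 * ϑ) * (((k : ℝ) ^ 2 / TS K k * c) / (k : ℝ) ^ (1 + α))) := by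
      rw [Real.rpow_neg hk0.le]
      unfold VH
      ring
    have e2 : ((k : ℝ) ^ 2 / TS K k * c) / (k : ℝ) ^ (1 + α) ≤ (1 + r) * δ := by
      rw [div_le_iff₀ hp2]
      linarith
    rw [e1]
    calc Real.exp 2 * ((1 + 8 * ϑ) * (((k : ℝ) ^ 2 / TS K k * c) / (k : ℝ) ^ (1 + α)))
        ≤ 7.39 * (1.125 * ((1 + r) * δ)) := by
          refine mul_le_mul he ?_ (by positivity) (by norm_num)
          exact mul_le_mul (by linarith) e2 (by positivity) (by norm_num)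
      _ ≤ 7.39 * (1.125 * ((1 + 1 / 512) * δ)) := by
          have e3 : (1 + r) * δ ≤ (1 + 1 / 512) * δ :=
            mul_le_mul_of_nonneg_right (by linarith) hδ.le
          linarith
      _ ≤ 1 * (9 * δ) := by linarith

end Pool.Agent.H89.EX
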