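import Pool.Agent.H89.EX.QGB0

/-!
# Board exa_modules, row QGB: the hypotheses of the induction
-/

set_option autoImplicit false

open MeasureTheory ProbabilityTheory Filter Topology
open scoped ENNReal
open Pool.Agent.H95 Pool.Agent.H95.Cop
open Pool.Agent.H96.Cop (ex pk measurable_ex ex_shift lint_mul_shift)
open Pool.Agent.H99.CE (NX w0 w1 BX CT TT Cc Gf lg tb cq)
open Pool.Agent.H98.SLN (RG gl TS)
open Pool.Agent.H98.EX

namespace Pool.Agent.H89.EX

/-- the chains of the base: all hypotheses of the induction -/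
theorem base_BV (hPFM : Pool.Agent.H99.CE.T_PFM) (hCCT : Pool.Agent.H99.CE.T_CCT)
    (hPHI : Pool.Agent.H99.CE.T_PHI) (ν : Measure ℝ) [IsProbabilityMeasure ν] (K : PMF ℕ)
    (k n0 J : ℕ) (hk : 1 ≤ k) (hn0 : 1 ≤ n0) (ga gb : ℕ → ℝ≥0∞)
    (V : ℕ → Bool → ℕ → (ℕ → ℝ) → ℝ≥0∞)
    (hch : ∀ j < J, B2 k (J * n0) (NX (w0 K k k) k) ga gb (TT n0 j) (V j))
    (hfa : ∀ D, ga D ≠ ∞) (hfb : ∀ D, gb D ≠ ∞) (t0 θ ρ κ κ' a a2 b b2 D8 : ℝ) (ht0 : 0 < t0)
    (hθ0 : 0 < θ) (hθ1 : θ ≤ 5 / 8) (hρ : 0 < ρ) (hκ : 0 < κ) (hκ' : 0 < κ') (ha : 0 ≤ a)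
    (ha2 : 0 ≤ a2) (hD8 : 0 ≤ D8)
    (hF : ∀ p r i, ∫⁻ x, NX (w0 K k k) k p r i x ^ θ ∂(iid ν) ≤
      ENNReal.ofReal (a * Real.exp (-(κ * ((i : ℝ) + 1)))))
    (hF2 : ∀ p r i, ∫⁻ x, NX (w0 K k k) k p r i x ^ (θ + ρ) ∂(iid ν) ≤
      ENNReal.ofReal (a2 * Real.exp (-(κ' * ((i : ℝ) + 1)))))
    (hL : ∑ D ∈ Finset.Icc 1 (J * n0),
      (ga D ^ θ + gb D ^ θ * ∫⁻ x, ex 0 ((D - 1) * k) x ^ θ ∂(iid ν)) ≤ ENNReal.ofReal b)
    (hL2 : ∑ D ∈ Finset.Icc 1 (J * n0),
      (ga D ^ (θ + ρ) + gb D ^ (θ + ρ) * ∫⁻ x, ex 0 ((D - 1) * k) x ^ (θ + ρ) ∂(iid ν)) ≤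
        ENNReal.ofReal b2)
    (hta : t0 ^ (-ρ) * a2 ≤ a) (hab : a * b ≤ D8) (hab2 : a2 * b2 ≤ D8)
    (hsm : D8 / κ ≤ 1 / 16) :
    BV ν k n0 J (NX (w0 K k k) k) ga gb V (Gf t0 θ) θ (lg 1) (fun y => lg t0 y + 8)
      (ENNReal.ofReal (a / κ)) (ENNReal.ofReal (a * (1 / (ρ * κ') + 8 / κ)))
      (ENNReal.ofReal (D8 / κ)) (ENNReal.ofReal (D8 / (ρ * κ')))
      (ENNReal.ofReal (2 * (a / κ)))
      (ENNReal.ofReal (2 * (a * (1 / (ρ * κ') + 8 / κ) + D8 / (ρ * κ') * (2 * (a / κ))))) := by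
  have hWR := (hPFM.2 K).2 k k
  have hNX := (hPFM.1 _ hWR).2.2
  have hmN : ∀ p r i, Measurable (NX (w0 K k k) k p r i) := fun p r i => (hNX k p r i).1
  by_cases hJ : J = 0
  · subst hJ
    refine ⟨hk, hn0, hch, hfa, hfb, (hCCT.2.1 t0 θ ht0 hθ0 (by linarith)).2, hθ0, by linarith,
      measurable_lg 1, (measurable_lg t0).add_const 8, ?_, ?_, ?_, ?_, ?_, ?_, ?_, ?_⟩
    · intro z y hz hy
      refine (Gf_le hPHI ht0 hθ0 hθ1 (ENNReal.mul_ne_top hz hy)).trans ?_
      have h1 := lg_mul ht0 hz hy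
      have h2 : lg t0 (z * y) + 8 ≤ lg 1 z + (lg t0 y + 8) := by
        rw [← add_assoc]
        exact add_le_add h1 le_rfl
      exact mul_le_mul' le_rfl h2
    · intro z y hz hy
      exact lg_mul one_pos hz hy
    · intro p
      simp
    · intro p
      simp
    · intro p
      simp
    · intro p
      simp
    · rw [← ENNReal.ofReal_mul (by positivity), ← ENNReal.ofReal_add (by positivity)
        (by positivity)]
      refine ENNReal.ofReal_le_ofReal ?_
      have h1 : 0 ≤ a / κ := by positivity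
      have h2 := mul_le_mul_of_nonneg_right hsm (by positivity : 0 ≤ 2 * (a / κ))
      linarith
    · have hE : 0 ≤ a * (1 / (ρ * κ') + 8 / κ) := by positivity
      have hq : 0 ≤ D8 / (ρ * κ') * (2 * (a / κ)) := by positivity
      rw [← ENNReal.ofReal_mul (by positivity), ← ENNReal.ofReal_mul (by positivity),
        ← ENNReal.ofReal_add (by positivity) (by positivity),
        ← ENNReal.ofReal_add (by positivity) (by positivity)]
      refine ENNReal.ofReal_le_ofReal ?_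
      have h2 := mul_le_mul_of_nonneg_right hsm
        (by positivity : 0 ≤ 2 * (a * (1 / (ρ * κ') + 8 / κ) + D8 / (ρ * κ') * (2 * (a / κ))))
      linarith
  have hfin : ∀ p r i x, NX (w0 K k k) k p r i x ≠ ∞ := fun p r i x =>
    ((hch 0 (Nat.pos_of_ne_zero hJ)).mN p r i).2.2 x
  refine ⟨hk, hn0, hch, hfa, hfb, (hCCT.2.1 t0 θ ht0 hθ0 (by linarith)).2, hθ0, by linarith,
    measurable_lg 1, (measurable_lg t0).add_const 8, ?_, ?_, ?_, ?_, ?_, ?_, ?_, ?_⟩
  · intro z y hz hy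
    refine (Gf_le hPHI ht0 hθ0 hθ1 (ENNReal.mul_ne_top hz hy)).trans ?_
    have h1 := lg_mul ht0 hz hy
    have h2 : lg t0 (z * y) + 8 ≤ lg 1 z + (lg t0 y + 8) := by
      rw [← add_assoc]
      exact add_le_add h1 le_rfl
    exact mul_le_mul' le_rfl h2
  · intro z y hz hy
    exact lg_mul one_pos hz hy
  · intro p
    exact (Finset.sum_le_sum fun c _ => hF p false c).trans (geoE hκ ha _)
  · intro p
    have h1 : ∀ c ∈ Finset.range (J * n0),
        ∫⁻ x, NX (w0 K k k) k p false c x ^ θ * (lg t0 (NX (w0 K k k) k p false c x) + 8)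
          ∂(iid ν) ≤
        ENNReal.ofReal (t0 ^ (-ρ) / ρ) *
          ENNReal.ofReal (a2 * Real.exp (-(κ' * ((c : ℝ) + 1)))) +
          8 * ENNReal.ofReal (a * Real.exp (-(κ * ((c : ℝ) + 1)))) := by
      intro c _
      calc ∫⁻ x, NX (w0 K k k) k p false c x ^ θ * (lg t0 (NX (w0 K k k) k p false c x) + 8)
            ∂(iid ν)
          ≤ ∫⁻ x, (ENNReal.ofReal (t0 ^ (-ρ) / ρ) * NX (w0 K k k) k p false c x ^ (θ + ρ) +
              8 * NX (w0 K k k) k p false c x ^ θ) ∂(iid ν) := by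
            refine lintegral_mono fun x => ?_
            rw [mul_add, mul_comm _ (8 : ℝ≥0∞)]
            exact add_le_add (lg_pow ht0 hθ0 hρ (hfin p false c x)) le_rfl
        _ = ENNReal.ofReal (t0 ^ (-ρ) / ρ) *
              ∫⁻ x, NX (w0 K k k) k p false c x ^ (θ + ρ) ∂(iid ν) +
              8 * ∫⁻ x, NX (w0 K k k) k p false c x ^ θ ∂(iid ν) := by
            rw [lintegral_add_left (((hmN p false c).pow_const _).const_mul _),
              lintegral_const_mul _ ((hmN p false c).pow_const _),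
              lintegral_const_mul _ ((hmN p false c).pow_const _)]
        _ ≤ _ := add_le_add (mul_le_mul' le_rfl (hF2 p false c))
            (mul_le_mul' le_rfl (hF p false c))
    refine (Finset.sum_le_sum h1).trans ?_
    rw [Finset.sum_add_distrib, ← Finset.mul_sum, ← Finset.mul_sum]
    have h8 : (8 : ℝ≥0∞) = ENNReal.ofReal 8 := by simp
    calc ENNReal.ofReal (t0 ^ (-ρ) / ρ) *
          ∑ c ∈ Finset.range (J * n0), ENNReal.ofReal (a2 * Real.exp (-(κ' * ((c : ℝ) + 1)))) +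
          8 * ∑ c ∈ Finset.range (J * n0), ENNReal.ofReal (a * Real.exp (-(κ * ((c : ℝ) + 1))))
        ≤ ENNReal.ofReal (t0 ^ (-ρ) / ρ) * ENNReal.ofReal (a2 / κ') +
          ENNReal.ofReal 8 * ENNReal.ofReal (a / κ) := by
          rw [h8]
          exact add_le_add (mul_le_mul' le_rfl (geoE hκ' ha2 _))
            (mul_le_mul' le_rfl (geoE hκ ha _))
      _ = ENNReal.ofReal (t0 ^ (-ρ) / ρ * (a2 / κ') + 8 * (a / κ)) := by
          rw [← ENNReal.ofReal_mul (by positivity), ← ENNReal.ofReal_mul (by positivity),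
            ← ENNReal.ofReal_add (by positivity) (by positivity)]
      _ ≤ ENNReal.ofReal (a * (1 / (ρ * κ') + 8 / κ)) := by
          refine ENNReal.ofReal_le_ofReal ?_
          have e1 : t0 ^ (-ρ) / ρ * (a2 / κ') = (t0 ^ (-ρ) * a2) / (ρ * κ') := by
            rw [div_mul_div_comm]
          have e2 : (t0 ^ (-ρ) * a2) / (ρ * κ') ≤ a / (ρ * κ') :=
            div_le_div_of_nonneg_right hta (by positivity)
          have e3 : a * (1 / (ρ * κ') + 8 / κ) = a / (ρ * κ') + 8 * (a / κ) := by ring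
          rw [e1, e3]
          linarith
  · intro p
    refine (links ν k (J * n0) θ κ a b hθ0.le hκ ha _ (fun p r i => hNX k p r i) ga gb hF hL
      p).trans (ENNReal.ofReal_le_ofReal ?_)
    rw [div_mul_eq_mul_div]
    exact div_le_div_of_nonneg_right hab hκ.le
  · intro p
    have hpow : ∀ x : ℝ≥0∞, x ≠ ∞ → x ^ θ * lg 1 x ≤ ENNReal.ofReal (1 / ρ) * x ^ (θ + ρ) := by
      intro x hx
      have h1 := lg_pow one_pos hθ0 hρ hx
      rwa [Real.one_rpow] at h1
    have hex : ∀ i D x, NX (w0 K k k) k p true i x *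
        (gb D * ex ((i + 1) * k) ((i + D) * k) x) ≠ ∞ := fun i D x =>
      ENNReal.mul_ne_top (hfin p true i x) (ENNReal.mul_ne_top (hfb D) ENNReal.ofReal_ne_top)
    have hga : ∀ i D x, NX (w0 K k k) k p false i x * ga D ≠ ∞ := fun i D x =>
      ENNReal.mul_ne_top (hfin p false i x) (hfa D)
    have h1 : ∀ i D, ∫⁻ x, (NX (w0 K k k) k p false i x * ga D) ^ θ *
        lg 1 (NX (w0 K k k) k p false i x * ga D) ∂(iid ν) ≤
        ENNReal.ofReal (1 / ρ) *
          ∫⁻ x, (NX (w0 K k k) k p false i x * ga D) ^ (θ + ρ) ∂(iid ν) := by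
      intro i D
      rw [← lintegral_const_mul _ (((hmN p false i).mul_const _).pow_const _)]
      exact lintegral_mono fun x => hpow _ (hga i D x)
    have h2 : ∀ i D, ∫⁻ x, (NX (w0 K k k) k p true i x *
        (gb D * ex ((i + 1) * k) ((i + D) * k) x)) ^ θ *
        lg 1 (NX (w0 K k k) k p true i x *
          (gb D * ex ((i + 1) * k) ((i + D) * k) x)) ∂(iid ν) ≤
        ENNReal.ofReal (1 / ρ) * ∫⁻ x, (NX (w0 K k k) k p true i x *
          (gb D * ex ((i + 1) * k) ((i + D) * k) x)) ^ (θ + ρ) ∂(iid ν) := by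
      intro i D
      have hm : Measurable fun x : ℕ → ℝ => (NX (w0 K k k) k p true i x *
          (gb D * ex ((i + 1) * k) ((i + D) * k) x)) ^ (θ + ρ) :=
        ((hmN p true i).mul ((measurable_ex _ _).const_mul _)).pow_const _
      rw [← lintegral_const_mul _ hm]
      exact lintegral_mono fun x => hpow _ (hex i D x)
    have h3 := links ν k (J * n0) (θ + ρ) κ' a2 b2 (by linarith) hκ' ha2 _
      (fun p r i => hNX k p r i) ga gb hF2 hL2 p
    calc _ ≤ ∑ i ∈ Finset.range (J * n0), ∑ D ∈ Finset.Icc 1 (J * n0), ENNReal.ofReal (1 / ρ) *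
          (∫⁻ x, (NX (w0 K k k) k p false i x * ga D) ^ (θ + ρ) ∂(iid ν) +
            ∫⁻ x, (NX (w0 K k k) k p true i x *
              (gb D * ex ((i + 1) * k) ((i + D) * k) x)) ^ (θ + ρ) ∂(iid ν)) := by
          refine Finset.sum_le_sum fun i _ => Finset.sum_le_sum fun D _ => ?_
          rw [mul_add]
          exact add_le_add (h1 i D) (h2 i D)
      _ = ENNReal.ofReal (1 / ρ) *
          ∑ i ∈ Finset.range (J * n0), ∑ D ∈ Finset.Icc 1 (J * n0),
          (∫⁻ x, (NX (w0 K k k) k p false i x * ga D) ^ (θ + ρ) ∂(iid ν) +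
            ∫⁻ x, (NX (w0 K k k) k p true i x *
              (gb D * ex ((i + 1) * k) ((i + D) * k) x)) ^ (θ + ρ) ∂(iid ν)) := by
          rw [Finset.mul_sum]
          exact Finset.sum_congr rfl fun i _ => (Finset.mul_sum _ _ _).symm
      _ ≤ ENNReal.ofReal (1 / ρ) * ENNReal.ofReal (a2 / κ' * b2) := mul_le_mul' le_rfl h3
      _ = ENNReal.ofReal (1 / ρ * (a2 / κ' * b2)) := (ENNReal.ofReal_mul (by positivity)).symm
      _ ≤ ENNReal.ofReal (D8 / (ρ * κ')) := by
          refine ENNReal.ofReal_le_ofReal ?_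
          have e1 : 1 / ρ * (a2 / κ' * b2) = (a2 * b2) / (ρ * κ') := by
            field_simp
          rw [e1]
          exact div_le_div_of_nonneg_right hab2 (by positivity)
  · rw [← ENNReal.ofReal_mul (by positivity), ← ENNReal.ofReal_add (by positivity)
      (by positivity)]
    refine ENNReal.ofReal_le_ofReal ?_
    have h1 : 0 ≤ a / κ := by positivity
    have h2 := mul_le_mul_of_nonneg_right hsm (by positivity : 0 ≤ 2 * (a / κ))
    linarith
  · have hE : 0 ≤ a * (1 / (ρ * κ') + 8 / κ) := by positivity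
    have hq : 0 ≤ D8 / (ρ * κ') * (2 * (a / κ)) := by positivity
    rw [← ENNReal.ofReal_mul (by positivity), ← ENNReal.ofReal_mul (by positivity),
      ← ENNReal.ofReal_add (by positivity) (by positivity),
      ← ENNReal.ofReal_add (by positivity) (by positivity)]
    refine ENNReal.ofReal_le_ofReal ?_
    have h2 := mul_le_mul_of_nonneg_right hsm
      (by positivity : 0 ≤ 2 * (a * (1 / (ρ * κ') + 8 / κ) + D8 / (ρ * κ') * (2 * (a / κ))))
    linarith

end Pool.Agent.H89.EX
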